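import Pool.Agent.Helper12.CF.Main

/-!
Context-free sets of numerals in base `k`.
-/

namespace Pool.Agent.Helper12.CF

open Finset Filter

noncomputable section

/-- The numbers with `n` digits in base `k` whose digit list, least digit first, is in `L`. -/
def sl (k : ℕ) (L : Language ℕ) (n : ℕ) : Set ℕ :=
  {m | k ^ (n - 1) ≤ m ∧ m < k ^ n ∧ Nat.digits k m ∈ L}

lemma sl_finite (k : ℕ) (L : Language ℕ) (n : ℕ) : (sl k L n).Finite :=
  Set.Finite.subset (Finset.finite_toSet (range (k ^ n)))
    (fun _ hm => Finset.mem_coe.2 (Finset.mem_range.2 hm.2.1))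

/-- Allowed digits of the numbers with exactly `n` digits. -/
def Aln (k n i : ℕ) : Finset ℕ := if i + 1 = n then Ico 1 k else range k

lemma card_Aln (k n i : ℕ) : (Aln k n i).card ≤ k := by
  unfold Aln
  split_ifs
  · rw [Nat.card_Ico]; omega
  · rw [Finset.card_range]

lemma value_ofDigits (k : ℕ) (w : List ℕ) :
    value (fun i a => a * k ^ i) w = Nat.ofDigits k w := by
  unfold value
  rw [Nat.ofDigits_eq_sum_mapIdx]

lemma wd_digits {k n : ℕ} (hk : 2 ≤ k) (hn : 1 ≤ n) {g : ContextFreeGrammar ℕ} {w : List ℕ}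
    (hw : w ∈ Wd g (Aln k n) n) : Nat.digits k (Nat.ofDigits k w) = w := by
  obtain ⟨_, h2, h3⟩ := hw
  apply Nat.digits_ofDigits k (by omega)
  · intro l hl
    obtain ⟨i, hi, rfl⟩ := List.getElem_of_mem hl
    have := h3 i hi
    unfold Aln at this
    split_ifs at this
    · exact (Finset.mem_Ico.1 this).2
    · exact Finset.mem_range.1 this
  · intro hne
    rw [List.getLast_eq_getElem]
    have := h3 (w.length - 1) (by omega)
    unfold Aln at this
    rw [if_pos (by omega)] at this
    have := (Finset.mem_Ico.1 this).1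
    omega

lemma digits_wd {k n : ℕ} (hk : 2 ≤ k) (hn : 1 ≤ n) {g : ContextFreeGrammar ℕ} {m : ℕ}
    (hm : m ∈ sl k g.language n) : Nat.digits k m ∈ Wd g (Aln k n) n := by
  obtain ⟨h1, h2, h3⟩ := hm
  have hm0 : m ≠ 0 := by
    have : 0 < k ^ (n - 1) := by positivity
    omega
  have hlen : (Nat.digits k m).length = n := by
    rw [Nat.digits_len k m (by omega) hm0]
    have : Nat.log k m = n - 1 := by
      rw [Nat.log_eq_iff (Or.inr ⟨by omega, hm0⟩)]
      refine ⟨h1, ?_⟩
      rwa [show n - 1 + 1 = n by omega]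
    omega
  refine ⟨h3, hlen, ?_⟩
  intro i hi
  unfold Aln
  have hlt : (Nat.digits k m)[i] < k := Nat.digits_lt_base (by omega) (List.getElem_mem hi)
  split_ifs with h
  · rw [Finset.mem_Ico]
    refine ⟨?_, hlt⟩
    have hne : Nat.digits k m ≠ [] := by
      intro h0
      rw [h0] at hlen
      simp at hlen
      omega
    have hl := Nat.getLast_digit_ne_zero k hm0
    rw [List.getLast_eq_getElem] at hl
    have e : (Nat.digits k m).length - 1 = i := by omega
    simp only [e] at hl
    omega
  · exact Finset.mem_range.2 hlt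

lemma lt_of_rep_pos {A : Set ℕ} {L N : ℕ} (hA : ∀ a ∈ A, a < L) (h : 0 < rep A N) :
    N < 2 * L := by
  unfold rep at h
  obtain ⟨q, h1, h2, h3⟩ := Set.nonempty_of_ncard_ne_zero h.ne'
  have := hA _ h1
  have := hA _ h2
  omega

/-- **The inequality in base `k`**, uniform in the grammar. -/
theorem cf_scale (k : ℕ) (hk : 2 ≤ k) {δ : ℝ} (hδ : 0 < δ) : ∃ c : ℝ, 0 < c ∧
    ∀ (g : ContextFreeGrammar ℕ) (n : ℕ) (A : Set ℕ), 1 ≤ n → sl k g.language n ⊆ A →
      (k : ℝ) ^ (δ * n) ≤ ((sl k g.language n).ncard : ℝ) →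
      ∃ N < 2 * k ^ n, Real.exp (c * n / Real.log (2 + gsize g)) ≤ (rep A N : ℝ) := by
  have hk0 : (0 : ℝ) < k := by
    have : 0 < k := by omega
    exact_mod_cast this
  have hlogk : 0 < Real.log k := Real.log_pos (by
    have : 1 < k := by omega
    exact_mod_cast this)
  obtain ⟨c, hc, H⟩ := cf_words k (show 0 < δ * Real.log k by positivity)
  refine ⟨c, hc, ?_⟩
  intro g n A hn hA hcard
  have hval : ∀ w ∈ Wd g (Aln k n) n,
      value (fun i a => a * k ^ i) w ∈ sl k g.language n := by
    intro w hw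
    rw [value_ofDigits]
    have hd := wd_digits hk hn hw
    have hlen : (Nat.digits k (Nat.ofDigits k w)).length = n := by rw [hd]; exact hw.2.1
    have hm0 : Nat.ofDigits k w ≠ 0 := by
      intro h0
      rw [h0] at hlen
      simp at hlen
      omega
    refine ⟨?_, ?_, ?_⟩
    · have := Nat.base_pow_length_digits_le k (Nat.ofDigits k w) (by omega) hm0
      rw [hlen] at this
      have e : k ^ n = k * k ^ (n - 1) := by
        rw [← pow_succ', show n - 1 + 1 = n by omega]
      rw [e] at this
      exact Nat.le_of_mul_le_mul_left this (by omega)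
    · have := Nat.lt_base_pow_length_digits (b := k) (m := Nat.ofDigits k w) (by omega)
      rwa [hlen] at this
    · rw [hd]
      exact hw.1
  have hinj : Set.InjOn (value (fun i a => a * k ^ i)) (Wd g (Aln k n) n) := by
    intro w hw w' hw' h
    rw [value_ofDigits, value_ofDigits] at h
    rw [← wd_digits hk hn hw, ← wd_digits hk hn hw', h]
  have hWfin : (Wd g (Aln k n) n).Finite := by
    refine Set.Finite.of_finite_image ((sl_finite k g.language n).subset ?_) hinj
    rintro _ ⟨w, hw, rfl⟩
    exact hval w hw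
  have hcard2 : (sl k g.language n).ncard ≤ (Wd g (Aln k n) n).ncard := by
    refine Set.ncard_le_ncard_of_injOn (Nat.digits k) (fun m hm => digits_wd hk hn hm) ?_ hWfin
    intro m _ m' _ h
    exact Nat.digits_inj_iff.1 h
  have hexp : Real.exp (δ * Real.log k * n) ≤ ((Wd g (Aln k n) n).ncard : ℝ) := by
    refine le_trans ?_ (hcard.trans (by exact_mod_cast hcard2))
    rw [Real.rpow_def_of_pos hk0]
    apply Real.exp_le_exp.2
    apply le_of_eq
    ring
  obtain ⟨N, hN⟩ := H ℕ g (fun i a => a * k ^ i) (Aln k n) n (sl k g.language n)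
    (card_Aln k n) hval hinj hexp
  refine ⟨N, ?_, hN.trans (by exact_mod_cast rep_mono hA N)⟩
  refine lt_of_rep_pos (A := sl k g.language n) (fun a ha => ha.2.1) ?_
  have : (0 : ℝ) < rep (sl k g.language n) N := (Real.exp_pos _).trans_le hN
  exact_mod_cast this

end

end Pool.Agent.Helper12.CF
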