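import Pool.Agent.Helper12.CF.Inf

/-!
Not even a choice of representations is context-free.
-/

namespace Pool.Agent.Helper12.CF

open Finset Filter

noncomputable section

/-- The pairs `a + b M` with `a, b` in `B`. -/
def dbl (B : Set ℕ) (M : ℕ) : Set ℕ := {x | ∃ a ∈ B, ∃ b ∈ B, x = a + b * M}

lemma rep_dbl {B : Set ℕ} {H : ℕ} (hB : ∀ a ∈ B, a < H) (N : ℕ) :
    rep (dbl B (2 * H)) N ≤ rep B (N % (2 * H)) * rep B (N / (2 * H)) := by
  classical
  rcases Nat.eq_zero_or_pos H with h0 | hH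
  · have hBe : B = ∅ := by
      ext a
      simp only [Set.mem_empty_iff_false, iff_false]
      intro ha
      have := hB a ha
      omega
    have : rep (dbl B (2 * H)) N = 0 := by
      unfold rep dbl
      rw [hBe]
      simp
    rw [this]
    exact Nat.zero_le _
  have hM : 0 < 2 * H := by omega
  -- the components of the members of `dbl`
  have hcomp : ∀ x ∈ dbl B (2 * H), x % (2 * H) ∈ B ∧ x / (2 * H) ∈ B := by
    rintro x ⟨a, ha, b, hb, rfl⟩
    have h1 := hB a ha
    rw [Nat.add_mul_mod_self_right, Nat.mod_eq_of_lt (by omega), Nat.add_mul_div_right _ _ hM,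
      Nat.div_eq_of_lt (by omega), Nat.zero_add]
    exact ⟨ha, hb⟩
  unfold rep
  have hprod : ({p : ℕ × ℕ | p.1 ∈ B ∧ p.2 ∈ B ∧ p.1 + p.2 = N % (2 * H)} ×ˢ
      {p : ℕ × ℕ | p.1 ∈ B ∧ p.2 ∈ B ∧ p.1 + p.2 = N / (2 * H)}).ncard =
      {p : ℕ × ℕ | p.1 ∈ B ∧ p.2 ∈ B ∧ p.1 + p.2 = N % (2 * H)}.ncard *
        {p : ℕ × ℕ | p.1 ∈ B ∧ p.2 ∈ B ∧ p.1 + p.2 = N / (2 * H)}.ncard :=
    Set.ncard_prod
  rw [← hprod]
  refine Set.ncard_le_ncard_of_injOn
    (fun p => ((p.1 % (2 * H), p.2 % (2 * H)), (p.1 / (2 * H), p.2 / (2 * H)))) ?_ ?_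
    ((rep_finite B _).prod (rep_finite B _))
  · rintro ⟨x, y⟩ ⟨hx, hy, hxy⟩
    simp only at hx hy hxy
    obtain ⟨x1, x2⟩ := hcomp x hx
    obtain ⟨y1, y2⟩ := hcomp y hy
    have l1 := hB _ x1
    have l2 := hB _ y1
    have ex : 2 * H * (x / (2 * H)) + x % (2 * H) = x := Nat.div_add_mod x (2 * H)
    have ey : 2 * H * (y / (2 * H)) + y % (2 * H) = y := Nat.div_add_mod y (2 * H)
    have eN : N = (x % (2 * H) + y % (2 * H)) + (x / (2 * H) + y / (2 * H)) * (2 * H) := by
      rw [← hxy]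
      conv_lhs => rw [← ex, ← ey]
      ring
    have e1 : N % (2 * H) = x % (2 * H) + y % (2 * H) := by
      rw [eN, Nat.add_mul_mod_self_right, Nat.mod_eq_of_lt (by omega)]
    have e2 : N / (2 * H) = x / (2 * H) + y / (2 * H) := by
      rw [eN, Nat.add_mul_div_right _ _ hM, Nat.div_eq_of_lt (by omega), Nat.zero_add]
    exact Set.mem_prod.2 ⟨⟨x1, y1, e1.symm⟩, ⟨x2, y2, e2.symm⟩⟩
  · rintro ⟨x, y⟩ _ ⟨x', y'⟩ _ h
    simp only [Prod.mk.injEq] at h
    obtain ⟨⟨h1, h2⟩, h3, h4⟩ := h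
    have ex : 2 * H * (x / (2 * H)) + x % (2 * H) = x := Nat.div_add_mod x (2 * H)
    have ey : 2 * H * (y / (2 * H)) + y % (2 * H) = y := Nat.div_add_mod y (2 * H)
    have ex' : 2 * H * (x' / (2 * H)) + x' % (2 * H) = x' := Nat.div_add_mod x' (2 * H)
    have ey' : 2 * H * (y' / (2 * H)) + y' % (2 * H) = y' := Nat.div_add_mod y' (2 * H)
    rw [Prod.mk.injEq]
    constructor
    · rw [← ex, ← ex', h1, h3]
    · rw [← ey, ← ey', h2, h4]

/-- The first and the second number of a word of pairs of digits. -/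
def num1 (k : ℕ) (w : List (ℕ × ℕ)) : ℕ := Nat.ofDigits k (w.map Prod.fst)

/-- The second number. -/
def num2 (k : ℕ) (w : List (ℕ × ℕ)) : ℕ := Nat.ofDigits k (w.map Prod.snd)

lemma value_pairs (k M : ℕ) (w : List (ℕ × ℕ)) :
    value (fun i p => (p.1 + p.2 * M) * k ^ i) w = num1 k w + num2 k w * M := by
  have h1 : value (fun i p => (p.1 + p.2 * M) * k ^ i) w =
      Nat.ofDigits k (w.map (fun p => p.1 + p.2 * M)) := by
    rw [Nat.ofDigits_eq_sum_mapIdx]
    unfold value
    congr 1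
    apply List.ext_getElem
    · simp
    · intro i h1 h2
      simp
  rw [h1]
  unfold num1 num2
  clear h1
  induction w with
  | nil => simp
  | cons p w ih =>
    simp only [List.map_cons, Nat.ofDigits_cons]
    rw [ih]
    ring

lemma num_inj {k : ℕ} (hk : 2 ≤ k) {w w' : List (ℕ × ℕ)} (hlen : w.length = w'.length)
    (h : ∀ p ∈ w, p.1 < k ∧ p.2 < k) (h' : ∀ p ∈ w', p.1 < k ∧ p.2 < k)
    (e1 : num1 k w = num1 k w') (e2 : num2 k w = num2 k w') : w = w' := by
  have a1 : w.map Prod.fst = w'.map Prod.fst := by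
    apply Nat.ofDigits_inj_of_len_eq (b := k) (by omega) (by simpa using hlen)
    · intro l hl
      obtain ⟨p, hp, rfl⟩ := List.mem_map.1 hl
      exact (h p hp).1
    · intro l hl
      obtain ⟨p, hp, rfl⟩ := List.mem_map.1 hl
      exact (h' p hp).1
    · exact e1
  have a2 : w.map Prod.snd = w'.map Prod.snd := by
    apply Nat.ofDigits_inj_of_len_eq (b := k) (by omega) (by simpa using hlen)
    · intro l hl
      obtain ⟨p, hp, rfl⟩ := List.mem_map.1 hl
      exact (h p hp).2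
    · intro l hl
      obtain ⟨p, hp, rfl⟩ := List.mem_map.1 hl
      exact (h' p hp).2
    · exact e2
  apply List.ext_getElem hlen
  intro i hi hi'
  apply Prod.ext
  · have := congrArg (fun l => l[i]?) a1
    simpa [hi, hi'] using this
  · have := congrArg (fun l => l[i]?) a2
    simpa [hi, hi'] using this

/-- **No context-free choice of representations.** `A` is arbitrary; the grammar produces words
of pairs of digits; the words of length `n` with digits below `k` give pairs of elements of `A`,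
and their sums cover `[t, k ^ n)`. -/
theorem cf_choice (k : ℕ) (hk : 2 ≤ k) : ∃ c : ℝ, 0 < c ∧
    ∀ (g : ContextFreeGrammar (ℕ × ℕ)) (n t : ℕ) (A : Set ℕ), 2 ≤ n → 2 * t ≤ k ^ n →
      (∀ w ∈ g.language, w.length = n → (∀ p ∈ w, p.1 < k ∧ p.2 < k) →
        num1 k w ∈ A ∧ num2 k w ∈ A) →
      (∀ m, t ≤ m → m < k ^ n → ∃ w ∈ g.language, w.length = n ∧
        (∀ p ∈ w, p.1 < k ∧ p.2 < k) ∧ num1 k w + num2 k w = m) →
      ∃ N < 2 * k ^ n, Real.exp (c * n / Real.log (2 + gsize g)) ≤ (rep A N : ℝ) := by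
  classical
  have hk1 : (1 : ℝ) < k := by
    have : 1 < k := by omega
    exact_mod_cast this
  have hk0 : (0 : ℝ) < k := by linarith
  have hlk := Real.log_pos hk1
  obtain ⟨c, hc, H⟩ := cf_words (k * k) (show 0 < Real.log k / 2 by positivity)
  refine ⟨c / 2, by positivity, ?_⟩
  intro g n t A hn ht hA hcov
  set M := 2 * k ^ n with hM
  set Al : ℕ → Finset (ℕ × ℕ) := fun _ => range k ×ˢ range k with hAl
  set B : Set ℕ := {a | a ∈ A ∧ a < k ^ n} with hB
  have hWd : ∀ w, w ∈ Wd g Al n ↔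
      w ∈ g.language ∧ w.length = n ∧ ∀ p ∈ w, p.1 < k ∧ p.2 < k := by
    intro w
    unfold Wd
    simp only [Set.mem_ofPred_eq, hAl, Finset.mem_product, Finset.mem_range]
    constructor
    · rintro ⟨h1, h2, h3⟩
      refine ⟨h1, h2, ?_⟩
      intro p hp
      obtain ⟨i, hi, rfl⟩ := List.getElem_of_mem hp
      exact h3 i hi
    · rintro ⟨h1, h2, h3⟩
      exact ⟨h1, h2, fun i hi => h3 _ (List.getElem_mem hi)⟩
  have hlt : ∀ w ∈ Wd g Al n, num1 k w < k ^ n ∧ num2 k w < k ^ n := by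
    intro w hw
    obtain ⟨_, h2, h3⟩ := (hWd w).1 hw
    constructor
    · have := Nat.ofDigits_lt_base_pow_length (b := k) (l := w.map Prod.fst) (by omega) (by
        intro l hl
        obtain ⟨p, hp, rfl⟩ := List.mem_map.1 hl
        exact (h3 p hp).1)
      rwa [List.length_map, h2] at this
    · have := Nat.ofDigits_lt_base_pow_length (b := k) (l := w.map Prod.snd) (by omega) (by
        intro l hl
        obtain ⟨p, hp, rfl⟩ := List.mem_map.1 hl
        exact (h3 p hp).2)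
      rwa [List.length_map, h2] at this
  have hval : ∀ w ∈ Wd g Al n, value (fun i p => (p.1 + p.2 * M) * k ^ i) w ∈ dbl B M := by
    intro w hw
    rw [value_pairs]
    obtain ⟨h1, h2, h3⟩ := (hWd w).1 hw
    obtain ⟨a1, a2⟩ := hA w h1 h2 h3
    obtain ⟨b1, b2⟩ := hlt w hw
    exact ⟨num1 k w, ⟨a1, b1⟩, num2 k w, ⟨a2, b2⟩, rfl⟩
  have hMpos : 0 < M := by rw [hM]; positivity
  have hinj : Set.InjOn (value (fun i (p : ℕ × ℕ) => (p.1 + p.2 * M) * k ^ i))
      (Wd g Al n) := by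
    intro w hw w' hw' h
    rw [value_pairs, value_pairs] at h
    obtain ⟨b1, b2⟩ := hlt w hw
    obtain ⟨b1', b2'⟩ := hlt w' hw'
    have m1 := congrArg (fun x => x % M) h
    have m2 := congrArg (fun x => x / M) h
    simp only [Nat.add_mul_mod_self_right] at m1
    simp only [Nat.add_mul_div_right _ _ hMpos] at m2
    rw [Nat.mod_eq_of_lt (by omega), Nat.mod_eq_of_lt (by omega)] at m1
    rw [Nat.div_eq_of_lt (by omega), Nat.div_eq_of_lt (by omega), Nat.zero_add,
      Nat.zero_add] at m2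
    obtain ⟨_, h2, h3⟩ := (hWd w).1 hw
    obtain ⟨_, h2', h3'⟩ := (hWd w').1 hw'
    exact num_inj hk (by omega) h3 h3' m1 m2
  have hWfin : (Wd g Al n).Finite := by
    refine Set.Finite.of_finite_image (Set.Finite.subset
      (Finset.finite_toSet (range (k ^ n + k ^ n * M))) ?_) hinj
    rintro _ ⟨w, hw, rfl⟩
    rw [value_pairs]
    obtain ⟨b1, b2⟩ := hlt w hw
    rw [Finset.mem_coe, Finset.mem_range]
    have : num2 k w * M ≤ k ^ n * M := Nat.mul_le_mul_right _ b2.le
    omega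
  -- the number of words
  have hcount : k ^ n - t ≤ (Wd g Al n).ncard := by
    have h1 : ((Finset.Ico t (k ^ n) : Finset ℕ) : Set ℕ) ⊆
        (fun w => num1 k w + num2 k w) '' (Wd g Al n) := by
      intro m hm
      rw [Finset.mem_coe, Finset.mem_Ico] at hm
      obtain ⟨w, w1, w2, w3, w4⟩ := hcov m hm.1 hm.2
      exact ⟨w, (hWd w).2 ⟨w1, w2, w3⟩, w4⟩
    have h2 := Set.ncard_le_ncard h1 (hWfin.image _)
    rw [Set.ncard_coe_finset, Nat.card_Ico] at h2
    exact h2.trans (Set.ncard_image_le hWfin)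
  have hcnt2 : Real.exp (Real.log k / 2 * n) ≤ ((Wd g Al n).ncard : ℝ) := by
    have h1 : (k ^ n : ℝ) / 2 ≤ ((Wd g Al n).ncard : ℝ) := by
      have h2 : k ^ n ≤ 2 * (Wd g Al n).ncard := by omega
      have h3 : ((k ^ n : ℕ) : ℝ) ≤ 2 * ((Wd g Al n).ncard : ℝ) := by exact_mod_cast h2
      push_cast at h3
      linarith
    refine le_trans ?_ h1
    have e1 : Real.exp (Real.log k / 2 * n) * Real.exp (Real.log k / 2 * n) = (k : ℝ) ^ n := by
      rw [← Real.exp_add, show Real.log k / 2 * n + Real.log k / 2 * n = n * Real.log k by ring,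
        Real.exp_nat_mul, Real.exp_log hk0]
    have e2 : 2 ≤ Real.exp (Real.log k / 2 * n) := by
      have h2 : (2 : ℝ) ≤ n := by exact_mod_cast hn
      have h3 : Real.log k ≤ Real.log k / 2 * n := by nlinarith
      calc (2 : ℝ) ≤ k := by exact_mod_cast hk
        _ = Real.exp (Real.log k) := (Real.exp_log hk0).symm
        _ ≤ _ := Real.exp_le_exp.2 h3
    have e3 := Real.exp_pos (Real.log k / 2 * n)
    nlinarith
  obtain ⟨N, hN⟩ := H (ℕ × ℕ) g (fun i p => (p.1 + p.2 * M) * k ^ i) Al n (dbl B M)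
    (by intro t; rw [hAl]; simp) hval hinj hcnt2
  have hr : rep (dbl B M) N ≤ rep B (N % M) * rep B (N / M) :=
    rep_dbl (H := k ^ n) (fun a ha => ha.2) N
  have hBA : B ⊆ A := fun a ha => ha.1
  set x : ℝ := Real.exp (c / 2 * n / Real.log (2 + gsize g)) with hx
  have hxx : x * x = Real.exp (c * n / Real.log (2 + gsize g)) := by
    rw [hx, ← Real.exp_add]
    congr 1
    ring
  have hx0 : 0 < x := Real.exp_pos _
  have hbig : x ≤ (rep B (N % M) : ℝ) ∨ x ≤ (rep B (N / M) : ℝ) := by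
    by_contra hcon
    push Not at hcon
    have h1 : (rep B (N % M) : ℝ) * (rep B (N / M) : ℝ) < x * x :=
      mul_lt_mul'' hcon.1 hcon.2 (by positivity) (by positivity)
    have h2 : (rep (dbl B M) N : ℝ) ≤ (rep B (N % M) : ℝ) * (rep B (N / M) : ℝ) := by
      exact_mod_cast hr
    rw [hxx] at h1
    linarith
  have hfin : ∀ N', x ≤ (rep B N' : ℝ) → N' < 2 * k ^ n ∧ x ≤ (rep A N' : ℝ) := by
    intro N' h
    constructor
    · apply lt_of_rep_pos (A := B) (fun a ha => ha.2)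
      have : (0 : ℝ) < rep B N' := hx0.trans_le h
      exact_mod_cast this
    · exact h.trans (by exact_mod_cast rep_mono hBA N')
  rcases hbig with h | h
  · obtain ⟨a, b⟩ := hfin _ h
    exact ⟨_, a, b⟩
  · obtain ⟨a, b⟩ := hfin _ h
    exact ⟨_, a, b⟩

end

end Pool.Agent.Helper12.CF
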