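import Pool.Agent.Helper12.CF.Ind

/-!
Context-free grammars of Mathlib give systems.
-/

namespace Pool.Agent.Helper12.CF

open Finset

noncomputable section

variable {T : Type}

/-- `Gen g γ w`: the symbols `γ` generate the word `w`. -/
inductive Gen (g : ContextFreeGrammar T) : List (Symbol T g.NT) → List T → Prop
  | nil : Gen g [] []
  | term {a : T} {γ : List (Symbol T g.NT)} {w : List T} (h : Gen g γ w) :
      Gen g (Symbol.terminal a :: γ) (a :: w)
  | nont {r : ContextFreeRule T g.NT} (hr : r ∈ g.rules) {u : List T}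
      (hu : Gen g r.output u) {γ : List (Symbol T g.NT)} {w : List T} (h : Gen g γ w) :
      Gen g (Symbol.nonterminal r.input :: γ) (u ++ w)

variable {g : ContextFreeGrammar T}

lemma Gen.derives {γ : List (Symbol T g.NT)} {w : List T} (h : Gen g γ w) :
    g.Derives γ (w.map Symbol.terminal) := by
  induction h with
  | nil => exact ContextFreeGrammar.Derives.refl _
  | @term a γ w h ih =>
    have := ContextFreeGrammar.Derives.append_left ih [Symbol.terminal a]
    simpa using this
  | @nont r hr u hu γ w h ih1 ih2 =>
    have e1 : g.Derives (Symbol.nonterminal r.input :: γ) (r.output ++ γ) :=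
      ContextFreeGrammar.Produces.single ⟨r, hr, ContextFreeRule.Rewrites.head γ⟩
    have e2 : g.Derives (r.output ++ γ) (u.map Symbol.terminal ++ γ) :=
      ContextFreeGrammar.Derives.append_right ih1 γ
    have e3 : g.Derives (u.map Symbol.terminal ++ γ)
        (u.map Symbol.terminal ++ w.map Symbol.terminal) :=
      ContextFreeGrammar.Derives.append_left ih2 _
    rw [List.map_append]
    exact e1.trans (e2.trans e3)

lemma Gen.append {γ : List (Symbol T g.NT)} {w : List T} (h : Gen g γ w)
    {γ' : List (Symbol T g.NT)} {w' : List T} (h' : Gen g γ' w') :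
    Gen g (γ ++ γ') (w ++ w') := by
  induction h with
  | nil => simpa using h'
  | @term a γ w h ih => exact Gen.term ih
  | @nont r hr u hu γ w h ih1 ih2 =>
    rw [List.append_assoc]
    exact Gen.nont hr hu ih2

lemma Gen.split {γ : List (Symbol T g.NT)} : ∀ {γ' : List (Symbol T g.NT)} {w : List T},
    Gen g (γ ++ γ') w → ∃ u v, w = u ++ v ∧ Gen g γ u ∧ Gen g γ' v := by
  induction γ with
  | nil => intro γ' w h; exact ⟨[], w, rfl, Gen.nil, h⟩
  | cons x γ ih =>
    intro γ' w h
    rw [List.cons_append] at h
    cases h with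
    | term h =>
      obtain ⟨u, v, rfl, hu, hv⟩ := ih h
      exact ⟨_ :: u, v, rfl, Gen.term hu, hv⟩
    | nont hr hu' h =>
      obtain ⟨u, v, rfl, hu, hv⟩ := ih h
      exact ⟨_ ++ u, v, (List.append_assoc _ _ _).symm, Gen.nont hr hu' hu, hv⟩

lemma gen_terminal (w : List T) : Gen g (w.map Symbol.terminal) w := by
  induction w with
  | nil => exact Gen.nil
  | cons a w ih => exact Gen.term ih

lemma gen_of_derives {γ : List (Symbol T g.NT)} {w : List T}
    (h : g.Derives γ (w.map Symbol.terminal)) : Gen g γ w := by
  induction h using Relation.ReflTransGen.head_induction_on with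
  | refl => exact gen_terminal w
  | @head a b hab hbc ih =>
    obtain ⟨r, hr, hrw⟩ := hab
    obtain ⟨p, q, rfl, rfl⟩ := hrw.exists_parts
    rw [List.append_assoc] at ih ⊢
    obtain ⟨u, v, rfl, hu, hv⟩ := ih.split
    obtain ⟨v1, v2, rfl, hv1, hv2⟩ := hv.split
    exact hu.append (Gen.nont hr hv1 hv2)

lemma gen_iff_mem (w : List T) : Gen g [Symbol.nonterminal g.initial] w ↔ w ∈ g.language :=
  ⟨fun h => h.derives, fun h => gen_of_derives h⟩

open scoped Classical in
/-- The labels: suffixes of right hand sides, single symbols of right hand sides and the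
start symbol. -/
def lab (g : ContextFreeGrammar T) : Finset (List (Symbol T g.NT)) :=
  {[]} ∪ {[Symbol.nonterminal g.initial]} ∪
    g.rules.biUnion (fun r => r.output.tails.toFinset ∪ (r.output.map (fun x => [x])).toFinset)

/-- The size of a grammar: the sum of `length of the right hand side + 1` over all rules. -/
def gsize (g : ContextFreeGrammar T) : ℕ := ∑ r ∈ g.rules, (r.output.length + 1)

lemma card_lab_le (g : ContextFreeGrammar T) : (lab g).card ≤ 2 + 2 * gsize g := by
  classical
  unfold lab gsize
  refine (Finset.card_union_le _ _).trans ?_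
  refine Nat.add_le_add ?_ ?_
  · refine (Finset.card_union_le _ _).trans ?_
    simp
  · refine Finset.card_biUnion_le.trans ?_
    rw [Finset.mul_sum]
    apply Finset.sum_le_sum
    intro r _
    refine (Finset.card_union_le _ _).trans ?_
    have h1 := List.toFinset_card_le r.output.tails
    have h2 := List.toFinset_card_le (r.output.map (fun x => [x]))
    rw [List.length_tails] at h1
    rw [List.length_map] at h2
    omega

lemma nil_mem_lab : ([] : List (Symbol T g.NT)) ∈ lab g := by
  classical
  unfold lab
  simp

lemma start_mem_lab : [Symbol.nonterminal g.initial] ∈ lab g := by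
  classical
  unfold lab
  simp

lemma output_mem_lab {r : ContextFreeRule T g.NT} (hr : r ∈ g.rules) : r.output ∈ lab g := by
  classical
  unfold lab
  rw [Finset.mem_union, Finset.mem_biUnion]
  refine Or.inr ⟨r, hr, ?_⟩
  rw [Finset.mem_union, List.mem_toFinset]
  left
  rw [List.mem_tails]

lemma cons_mem_lab {x : Symbol T g.NT} {γ : List (Symbol T g.NT)} (h : x :: γ ∈ lab g) :
    [x] ∈ lab g ∧ γ ∈ lab g := by
  classical
  by_cases hγ : γ = []
  · subst hγ
    exact ⟨h, nil_mem_lab⟩
  · unfold lab at h ⊢
    rw [Finset.mem_union, Finset.mem_biUnion] at h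
    rcases h with h | ⟨r, hr, h⟩
    · exfalso
      rw [Finset.mem_union, Finset.mem_singleton, Finset.mem_singleton] at h
      rcases h with h | h
      · exact absurd h (List.cons_ne_nil _ _)
      · rw [List.cons.injEq] at h
        exact hγ h.2
    · rw [Finset.mem_union, List.mem_toFinset, List.mem_toFinset, List.mem_tails] at h
      rcases h with h | h
      · constructor
        · rw [Finset.mem_union, Finset.mem_biUnion]
          refine Or.inr ⟨r, hr, ?_⟩
          rw [Finset.mem_union, List.mem_toFinset, List.mem_toFinset]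
          right
          rw [List.mem_map]
          exact ⟨x, h.subset (by simp), rfl⟩
        · rw [Finset.mem_union, Finset.mem_biUnion]
          refine Or.inr ⟨r, hr, ?_⟩
          rw [Finset.mem_union, List.mem_toFinset, List.mem_tails]
          left
          exact (List.suffix_cons x γ).trans h
      · exfalso
        rw [List.mem_map] at h
        obtain ⟨y, _, hy⟩ := h
        rw [List.cons.injEq] at hy
        exact hγ hy.2.symm

/-- Every generated word of length at least two has a free splitting into two shorter words. -/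
lemma gen_cut {γ : List (Symbol T g.NT)} {w : List T} (h : Gen g γ w) : γ ∈ lab g →
    2 ≤ w.length → ∃ y z u v, y ∈ lab g ∧ z ∈ lab g ∧ u ≠ [] ∧ v ≠ [] ∧ w = u ++ v ∧
      Gen g y u ∧ Gen g z v ∧ ∀ u' v', Gen g y u' → Gen g z v' → Gen g γ (u' ++ v') := by
  induction h with
  | nil => intro _ h; simp at h
  | @term a γ w h ih =>
    intro hlab hlen
    obtain ⟨h1, h2⟩ := cons_mem_lab hlab
    refine ⟨[Symbol.terminal a], γ, [a], w, h1, h2, by simp, ?_, by simp,
      Gen.term Gen.nil, h, ?_⟩
    · rintro rfl
      simp at hlen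
    · intro u' v' hu' hv'
      exact hu'.append hv'
  | @nont r hr u hu γ w h ih1 ih2 =>
    intro hlab hlen
    obtain ⟨h1, h2⟩ := cons_mem_lab hlab
    by_cases hu0 : u = []
    · subst hu0
      rw [List.nil_append] at hlen ⊢
      obtain ⟨y, z, u1, v1, k1, k2, k3, k4, k5, k6, k7, k8⟩ := ih2 h2 hlen
      refine ⟨y, z, u1, v1, k1, k2, k3, k4, k5, k6, k7, ?_⟩
      intro u' v' hu' hv'
      have := Gen.nont hr hu (k8 u' v' hu' hv')
      rwa [List.nil_append] at this
    · by_cases hw0 : w = []
      · subst hw0
        rw [List.append_nil] at hlen ⊢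
        obtain ⟨y, z, u1, v1, k1, k2, k3, k4, k5, k6, k7, k8⟩ := ih1 (output_mem_lab hr) hlen
        refine ⟨y, z, u1, v1, k1, k2, k3, k4, k5, k6, k7, ?_⟩
        intro u' v' hu' hv'
        have := Gen.nont hr (k8 u' v' hu' hv') h
        rwa [List.append_nil] at this
      · have hsingle : Gen g [Symbol.nonterminal r.input] u := by
          have := Gen.nont hr hu (Gen.nil (g := g))
          rwa [List.append_nil] at this
        exact ⟨[Symbol.nonterminal r.input], γ, u, w, h1, h2, hu0, hw0, rfl, hsingle, h,
          fun u' v' hu' hv' => hu'.append hv'⟩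

/-! The value function of a word at the positions from `i` on. -/

/-- `pl U i w`: the function with value `U (i + t) (w t)` at `i + t`, zero elsewhere. -/
def pl (U : ℕ → T → ℕ) : ℕ → List T → (ℕ → ℕ)
  | _, [] => 0
  | i, a :: w => Pi.single i (U i a) + pl U (i + 1) w

lemma pl_append (U : ℕ → T → ℕ) (i : ℕ) (u v : List T) :
    pl U i (u ++ v) = pl U i u + pl U (i + u.length) v := by
  induction u generalizing i with
  | nil => simp [pl]
  | cons a u ih =>
    simp only [List.cons_append, pl, List.length_cons]
    rw [ih (i + 1), show i + 1 + u.length = i + (u.length + 1) by ring, add_assoc]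

/-- All letters are allowed: `Al t` is the set of letters which are allowed at the position
`t`. -/
def Ok (Al : ℕ → Finset T) : ℕ → List T → Prop
  | _, [] => True
  | i, a :: w => a ∈ Al i ∧ Ok Al (i + 1) w

lemma ok_append (Al : ℕ → Finset T) (i : ℕ) (u v : List T) :
    Ok Al i (u ++ v) ↔ Ok Al i u ∧ Ok Al (i + u.length) v := by
  induction u generalizing i with
  | nil => simp [Ok]
  | cons a u ih =>
    simp only [List.cons_append, Ok, List.length_cons]
    rw [ih (i + 1), and_assoc, show i + 1 + u.length = i + (u.length + 1) by ring]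

open scoped Classical in
/-- Value sets. -/
def Dv (U : ℕ → T → ℕ) (Al : ℕ → Finset T) (t : ℕ) : Finset ℕ := (Al t).image (U t)

lemma pl_mem (U : ℕ → T → ℕ) (Al : ℕ → Finset T) (i : ℕ) (w : List T) (h : Ok Al i w) :
    pl U i w ∈ boxF (Dv U Al) (Ico i (i + w.length)) := by
  classical
  induction w generalizing i with
  | nil =>
    rw [mem_boxF]
    simp [pl]
  | cons a w ih =>
    obtain ⟨h1, h2⟩ := h
    have h3 := ih (i + 1) h2
    simp only [pl, List.length_cons]
    have h4 : (Pi.single i (U i a) : ℕ → ℕ) ∈ boxF (Dv U Al) (Ico i (i + 1)) := by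
      rw [mem_boxF]
      constructor
      · intro t ht
        have : t = i := by rw [Finset.mem_Ico] at ht; omega
        subst this
        rw [Pi.single_eq_same]
        exact Finset.mem_image_of_mem _ h1
      · intro t ht
        rw [Finset.mem_Ico] at ht
        rw [Pi.single_eq_of_ne (by omega)]
    refine add_mem_boxF h4 h3 ?_ ?_
    · rw [Finset.disjoint_left]
      intro t ht ht'
      rw [Finset.mem_Ico] at ht ht'
      omega
    · ext t
      rw [Finset.mem_union, Finset.mem_Ico, Finset.mem_Ico, Finset.mem_Ico]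
      omega

/-- The system of a grammar. -/
def gsys (g : ContextFreeGrammar T) (U : ℕ → T → ℕ) (Al : ℕ → Finset T) :
    Sys {γ // γ ∈ lab g} (Dv U Al) where
  W γ i j w := ∃ l : List T, Gen g γ.1 l ∧ j = i + l.length ∧ Ok Al i l ∧ w = pl U i l
  supp := by
    rintro γ i j w ⟨l, h1, rfl, h3, rfl⟩
    exact pl_mem U Al i l h3
  dec := by
    rintro ⟨γ, hγ⟩ i j w ⟨l, h1, rfl, h3, rfl⟩ hlen
    obtain ⟨y, z, u, v, k1, k2, k3, k4, rfl, k6, k7, k8⟩ := gen_cut h1 hγ (by omega)
    rw [ok_append] at h3
    have hu : 0 < u.length := List.length_pos_iff.2 k3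
    have hv : 0 < v.length := List.length_pos_iff.2 k4
    rw [List.length_append]
    refine ⟨i + u.length, ⟨y, k1⟩, ⟨z, k2⟩, pl U i u, pl U (i + u.length) v, by omega,
      by omega, ⟨u, k6, rfl, h3.1, rfl⟩, ⟨v, k7, by omega, h3.2, rfl⟩, pl_append U i u v, ?_⟩
    rintro u' v' ⟨l1, m1, m2, m3, rfl⟩ ⟨l2, n1, n2, n3, rfl⟩
    refine ⟨l1 ++ l2, k8 _ _ m1 n1, ?_, ?_, ?_⟩
    · rw [List.length_append]; omega
    · rw [ok_append]
      refine ⟨m3, ?_⟩
      have : u.length = l1.length := by omega
      rwa [← this]
    · rw [pl_append]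
      have : u.length = l1.length := by omega
      rw [← this]

end

end Pool.Agent.Helper12.CF
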