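import Pool.Agent.Helper12.CF.Pot

/-!
The induction on the length, the potential and the final inequality for systems.
-/

namespace Pool.Agent.Helper12.CF

open Finset

noncomputable section

variable {X : Type} {D : ℕ → Finset ℕ}

theorem all_good [Fintype X] (s : Sys X D) {q lam B : ℕ} {φ : ℕ → ℝ}
    (hD : ∀ t, (D t).card ≤ q) (hq : 1 ≤ q) (hB : 1 ≤ B) (hlam : q ^ B ≤ 2 ^ lam)
    (h0 : ∀ l ≤ B, φ l = 0)
    (hφ : ∀ l, B < l → ∀ l1 l2 l3 l4, l1 + l2 + l3 + l4 = l → 3 * l1 ≤ 2 * l →
      3 * l2 ≤ 2 * l → 3 * l3 ≤ 2 * l → 3 * l4 ≤ 2 * l →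
      (4 * Real.log (Fintype.card X) + 6 * Real.log (l + 1)) +
        (φ l1 + φ l2 + φ l3 + φ l4) ≤ φ l) :
    ∀ n, Upto s lam φ n := by
  have small : ∀ (S : Finset (ℕ → ℕ)) (I : Finset ℕ) (l : ℕ), S ⊆ boxF D I → I.card = l →
      l ≤ B → Good lam (φ l) S := by
    intro S I l hS hI hl
    rw [h0 l hl]
    refine good_small le_rfl ?_
    calc S.card ≤ (boxF D I).card := Finset.card_le_card hS
      _ ≤ q ^ I.card := card_boxF_le hD I
      _ ≤ q ^ B := Nat.pow_le_pow_right hq (by omega)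
      _ ≤ 2 ^ lam := hlam
  intro n
  induction n with
  | zero => exact ⟨fun x i j _ h => absurd h (by omega), fun x i j y p q _ _ _ h => absurd h (by omega)⟩
  | succ n ih =>
    constructor
    · intro x i j hij hlt
      rcases Nat.lt_or_ge (j - i) n with h | h
      · exact ih.1 x i j hij h
      have hl : j - i = n := by omega
      rw [hl]
      rcases Nat.lt_or_ge B n with hBn | hBn
      · have hX : 1 ≤ Fintype.card X := Fintype.card_pos_iff.2 ⟨x⟩
        have hX' : (1 : ℝ) ≤ (Fintype.card X : ℝ) := by exact_mod_cast hX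
        have hn1 : (1 : ℝ) ≤ (n : ℝ) + 1 := by
          have : (0 : ℝ) ≤ n := by positivity
          linarith
        have ws := word_step s (lam := lam) (φ := φ) (l := n) (by omega) ih
          (E := φ n - (4 * Real.log (Fintype.card X) + 6 * Real.log (n + 1)))
          (by
            intro l1 l2 e1 e2 e3
            have := hφ n hBn l1 l2 0 0 (by omega) e2 e3 (by omega) (by omega)
            rw [h0 0 (by omega)] at this
            linarith) (x := x) (i := i) (j := j) (by omega)
        unfold Good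
        refine ws.trans ?_
        rw [← mul_assoc]
        apply mul_le_mul_of_nonneg_right _ (by positivity)
        rw [Real.exp_sub]
        have hK : Real.exp (4 * Real.log (Fintype.card X) + 6 * Real.log (n + 1)) =
            (Fintype.card X : ℝ) ^ 4 * ((n : ℝ) + 1) ^ 6 := by
          rw [Real.exp_add]
          rw [show (4 : ℝ) * Real.log (Fintype.card X) = ((4 : ℕ) : ℝ) * Real.log (Fintype.card X)
            by norm_num, show (6 : ℝ) * Real.log (n + 1) = ((6 : ℕ) : ℝ) * Real.log (n + 1)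
            by norm_num, Real.exp_nat_mul, Real.exp_nat_mul, Real.exp_log (by linarith),
            Real.exp_log (by linarith)]
        rw [hK]
        have hKpos : (0 : ℝ) < (Fintype.card X : ℝ) ^ 4 * ((n : ℝ) + 1) ^ 6 := by positivity
        rw [← mul_div_assoc, div_le_iff₀ hKpos, mul_comm (Real.exp (φ n))]
        apply mul_le_mul_of_nonneg_right _ (Real.exp_pos _).le
        push_cast
        have e1 : (Fintype.card X : ℝ) ≤ (Fintype.card X : ℝ) ^ 4 := by
          simpa using pow_le_pow_right₀ hX' (show 1 ≤ 4 by norm_num)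
        have e2 : ((n : ℝ) + 1) ^ 2 ≤ ((n : ℝ) + 1) ^ 6 :=
          pow_le_pow_right₀ hn1 (show 2 ≤ 6 by norm_num)
        exact mul_le_mul e1 e2 (by positivity) (by positivity)
      · exact small _ (Ico i j) n (Wf_sub s x i j) (by rw [Nat.card_Ico]; exact hl) hBn
    · intro x i j y p r hip hpr hrj hlt
      rcases Nat.lt_or_ge (j - i - (r - p)) n with h | h
      · exact ih.2 x i j y p r hip hpr hrj h
      have hl : j - i - (r - p) = n := by omega
      rw [hl]
      rcases Nat.lt_or_ge B n with hBn | hBn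
      · have hX : 1 ≤ Fintype.card X := Fintype.card_pos_iff.2 ⟨x⟩
        have hX' : (1 : ℝ) ≤ (Fintype.card X : ℝ) := by exact_mod_cast hX
        have hn1 : (1 : ℝ) ≤ (n : ℝ) + 1 := by
          have : (0 : ℝ) ≤ n := by positivity
          linarith
        have ws := ctx_step s (lam := lam) (φ := φ) (l := n) (by omega) (h0 0 (by omega)) ih
          (E := φ n - (4 * Real.log (Fintype.card X) + 6 * Real.log (n + 1)))
          (by
            intro l1 l2 l3 l4 e1 e2 e3 e4 e5
            have := hφ n hBn l1 l2 l3 l4 e1 e2 e3 e4 e5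
            linarith) (x := x) (i := i) (j := j) (y := y) (p := p) (q := r) hip hpr hrj hl
        unfold Good
        refine ws.trans ?_
        rw [← mul_assoc]
        apply mul_le_mul_of_nonneg_right _ (by positivity)
        rw [Real.exp_sub]
        have hK : Real.exp (4 * Real.log (Fintype.card X) + 6 * Real.log (n + 1)) =
            (Fintype.card X : ℝ) ^ 4 * ((n : ℝ) + 1) ^ 6 := by
          rw [Real.exp_add]
          rw [show (4 : ℝ) * Real.log (Fintype.card X) = ((4 : ℕ) : ℝ) * Real.log (Fintype.card X)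
            by norm_num, show (6 : ℝ) * Real.log (n + 1) = ((6 : ℕ) : ℝ) * Real.log (n + 1)
            by norm_num, Real.exp_nat_mul, Real.exp_nat_mul, Real.exp_log (by linarith),
            Real.exp_log (by linarith)]
        rw [hK]
        have hKpos : (0 : ℝ) < (Fintype.card X : ℝ) ^ 4 * ((n : ℝ) + 1) ^ 6 := by positivity
        rw [← mul_div_assoc, div_le_iff₀ hKpos, mul_comm (Real.exp (φ n))]
        push_cast
        exact le_rfl
      · refine small _ (Ico i j \ Ico p r) n (Cf_sub s x i j y p r) ?_ hBn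
        rw [Finset.card_sdiff_of_subset, Nat.card_Ico, Nat.card_Ico]
        · exact hl
        · intro t ht
          rw [Finset.mem_Ico] at ht ⊢
          omega

/-- The potential. -/
def pot (B : ℕ) (a c0 : ℝ) (l : ℕ) : ℝ := if l ≤ B then 0 else a * l - (6 * Real.log l + c0)

lemma pot_cut {B : ℕ} (hB : 1 ≤ B) {a σ : ℝ} (hσ : 0 ≤ σ)
    (ha : 9 * (6 * Real.log (9 * B) + (6 * Real.log 162 + 4 * σ) + 4 * σ +
      6 * Real.log (9 * B + 1)) ≤ a * B)
    {l : ℕ} (hl : B < l) {l1 l2 l3 l4 : ℕ} (hs : l1 + l2 + l3 + l4 = l) (e1 : 3 * l1 ≤ 2 * l)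
    (e2 : 3 * l2 ≤ 2 * l) (e3 : 3 * l3 ≤ 2 * l) (e4 : 3 * l4 ≤ 2 * l) :
    (4 * σ + 6 * Real.log (l + 1)) +
      (pot B a (6 * Real.log 162 + 4 * σ) l1 + pot B a (6 * Real.log 162 + 4 * σ) l2 +
        pot B a (6 * Real.log 162 + 4 * σ) l3 + pot B a (6 * Real.log 162 + 4 * σ) l4) ≤
      pot B a (6 * Real.log 162 + 4 * σ) l := by
  set c0 := 6 * Real.log 162 + 4 * σ with hc0
  have hBR : (1 : ℝ) ≤ B := by exact_mod_cast hB
  have hlog162 : 0 ≤ Real.log 162 := Real.log_nonneg (by norm_num)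
  have hc0nn : 0 ≤ c0 := by positivity
  have hl1 : (B : ℝ) + 1 ≤ l := by exact_mod_cast hl
  have ha0 : 0 ≤ a := by
    have h1 : 0 ≤ Real.log (9 * B) := Real.log_nonneg (by linarith)
    have h2 : 0 ≤ Real.log (9 * B + 1) := Real.log_nonneg (by linarith)
    by_contra hneg
    push Not at hneg
    have : a * B < 0 := mul_neg_of_neg_of_pos hneg (by linarith)
    nlinarith
  -- savings
  set ψ : ℕ → ℝ := fun m => if m ≤ B then a * m else 6 * Real.log m + c0 with hψ
  have hpot : ∀ m : ℕ, pot B a c0 m = a * m - ψ m := by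
    intro m
    rw [hψ]
    unfold pot
    simp only
    split_ifs <;> ring
  have hψ0 : ∀ m : ℕ, 0 ≤ ψ m := by
    intro m
    rw [hψ]
    simp only
    split_ifs with h
    · positivity
    · have : (1 : ℝ) ≤ m := by
        have : 1 ≤ m := by omega
        exact_mod_cast this
      have := Real.log_nonneg this
      positivity
  have hψl : ψ l = 6 * Real.log l + c0 := by
    rw [hψ]
    simp only
    rw [if_neg (by omega)]
  -- a small part which is at least a ninth
  have key1 : ∀ m : ℕ, l ≤ 9 * m → m ≤ B → ψ l + (4 * σ + 6 * Real.log (l + 1)) ≤ ψ m := by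
    intro m hm hmB
    have hψm : ψ m = a * m := by
      rw [hψ]
      simp only
      rw [if_pos hmB]
    rw [hψl, hψm]
    have h1 : (l : ℝ) ≤ 9 * B := by
      have : l ≤ 9 * B := by omega
      exact_mod_cast this
    have h2 : Real.log l ≤ Real.log (9 * B) := Real.log_le_log (by linarith) h1
    have h3 : Real.log ((l : ℝ) + 1) ≤ Real.log (9 * B + 1) :=
      Real.log_le_log (by linarith) (by linarith)
    have h4 : (B : ℝ) ≤ 9 * m := by
      have : B ≤ 9 * m := by omega
      exact_mod_cast this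
    nlinarith
  -- two big parts
  have key2 : ∀ m : ℕ, l ≤ 9 * m → B < m → 6 * Real.log l + c0 - 6 * Real.log 9 ≤ ψ m := by
    intro m hm hmB
    have hψm : ψ m = 6 * Real.log m + c0 := by
      rw [hψ]
      simp only
      rw [if_neg (by omega)]
    rw [hψm]
    have hm1 : (0 : ℝ) < m := by
      have : 0 < m := by omega
      exact_mod_cast this
    have h1 : (l : ℝ) ≤ 9 * m := by exact_mod_cast hm
    have h2 : Real.log l ≤ Real.log (9 * m) := Real.log_le_log (by linarith) h1
    rw [Real.log_mul (by norm_num) hm1.ne'] at h2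
    linarith
  have key3 : ∀ m m' : ℕ, l ≤ 9 * m → l ≤ 9 * m' →
      ψ l + (4 * σ + 6 * Real.log (l + 1)) ≤ ψ m + ψ m' := by
    intro m m' hm hm'
    rcases Nat.lt_or_ge B m with h | h
    · rcases Nat.lt_or_ge B m' with h' | h'
      · have g1 := key2 m hm h
        have g2 := key2 m' hm' h'
        have hlp : (0 : ℝ) < l := by linarith
        have g3 : Real.log ((l : ℝ) + 1) ≤ Real.log 2 + Real.log l := by
          rw [← Real.log_mul (by norm_num) hlp.ne']
          exact Real.log_le_log (by linarith) (by linarith)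
        have g4 : Real.log 162 = 2 * Real.log 9 + Real.log 2 := by
          rw [show (162 : ℝ) = 9 ^ 2 * 2 by norm_num, Real.log_mul (by norm_num) (by norm_num),
            Real.log_pow]
          norm_num
        rw [hψl, hc0] at *
        linarith
      · have := key1 m' hm' h'
        linarith [hψ0 m]
    · have := key1 m hm h
      linarith [hψ0 m']
  have hsR : (l1 : ℝ) + l2 + l3 + l4 = l := by exact_mod_cast hs
  have hsum : a * l1 + a * l2 + a * l3 + a * l4 = a * l := by rw [← hsR]; ring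
  rw [hpot, hpot, hpot, hpot, hpot]
  have hpair : (l ≤ 9 * l1 ∧ l ≤ 9 * l2) ∨ (l ≤ 9 * l1 ∧ l ≤ 9 * l3) ∨
      (l ≤ 9 * l1 ∧ l ≤ 9 * l4) ∨ (l ≤ 9 * l2 ∧ l ≤ 9 * l3) ∨ (l ≤ 9 * l2 ∧ l ≤ 9 * l4) ∨
      (l ≤ 9 * l3 ∧ l ≤ 9 * l4) := by omega
  have z1 := hψ0 l1
  have z2 := hψ0 l2
  have z3 := hψ0 l3
  have z4 := hψ0 l4
  rcases hpair with h | h | h | h | h | h
  · have := key3 l1 l2 h.1 h.2; linarith
  · have := key3 l1 l3 h.1 h.2; linarith
  · have := key3 l1 l4 h.1 h.2; linarith
  · have := key3 l2 l3 h.1 h.2; linarith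
  · have := key3 l2 l4 h.1 h.2; linarith
  · have := key3 l3 l4 h.1 h.2; linarith

/-- The constant of the choice of `B`. -/
lemma choose_B {η : ℝ} (hη : 0 < η) : ∃ C : ℝ, 0 < C ∧ ∀ σ : ℝ, 0 ≤ σ → ∀ B : ℕ, 1 ≤ B →
    C * (1 + σ) ≤ B →
    9 * (6 * Real.log (9 * B) + (6 * Real.log 162 + 4 * σ) + 4 * σ +
      6 * Real.log (9 * B + 1)) ≤ (η / 2) * B := by
  have hε : 0 < η / 432 := by positivity
  set M : ℝ := |108 * Real.log (10 / (η / 432)) + 54 * Real.log 162| with hM
  have hM0 : 0 ≤ M := abs_nonneg _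
  refine ⟨4 / η * (M + 72), by positivity, ?_⟩
  intro σ hσ B hB hCB
  have hBR : (1 : ℝ) ≤ B := by exact_mod_cast hB
  have h1 : Real.log (9 * B) ≤ Real.log (10 * B) := Real.log_le_log (by linarith) (by linarith)
  have h2 : Real.log (9 * B + 1) ≤ Real.log (10 * B) :=
    Real.log_le_log (by linarith) (by linarith)
  have h3 : Real.log (10 * B) ≤ (η / 432) * B + Real.log (10 / (η / 432)) := by
    have e : (10 : ℝ) * B = (10 / (η / 432)) * ((η / 432) * B) := by
      field_simp
    rw [e, Real.log_mul (by positivity) (by positivity)]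
    have := Real.log_le_sub_one_of_pos (show 0 < (η / 432) * (B : ℝ) by positivity)
    linarith
  have h4 : 108 * Real.log (10 / (η / 432)) + 54 * Real.log 162 ≤ M := le_abs_self _
  have h5 : (M + 72) * (1 + σ) ≤ (η / 4) * B := by
    have : 4 / η * (M + 72) * (1 + σ) * (η / 4) ≤ B * (η / 4) :=
      mul_le_mul_of_nonneg_right hCB (by positivity)
    have e : 4 / η * (M + 72) * (1 + σ) * (η / 4) = (M + 72) * (1 + σ) := by
      field_simp
    rw [e] at this
    linarith
  nlinarith

theorem sys_main (q : ℕ) {η : ℝ} (hη : 0 < η) : ∃ c : ℝ, 0 < c ∧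
    ∀ (X : Type) [Fintype X] (D : ℕ → Finset ℕ), (∀ t, (D t).card ≤ q) →
    ∀ (s : Sys X D) (x : X) (n : ℕ), Real.exp (η * n) ≤ ((Wf s x 0 n).card : ℝ) →
    Real.exp (c * n / Real.log (2 + Fintype.card X)) ≤ (RR (Wf s x 0 n) : ℝ) := by
  obtain ⟨C, hC, hCB⟩ := choose_B hη
  set Q : ℕ := Nat.clog 2 (q + 1) + 1 with hQ
  have hQpos : (0 : ℝ) < Q := by
    rw [hQ]; positivity
  refine ⟨η / (2 * Q * (2 * C + 2)), by positivity, ?_⟩
  intro X _ D hD s x n hn
  have hX : 1 ≤ Fintype.card X := Fintype.card_pos_iff.2 ⟨x⟩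
  have hXR : (1 : ℝ) ≤ Fintype.card X := by exact_mod_cast hX
  set σ := Real.log (Fintype.card X) with hσd
  have hσ : 0 ≤ σ := Real.log_nonneg hXR
  set L := Real.log (2 + Fintype.card X) with hL
  have hL1 : 1 ≤ L := by
    rw [hL, Real.le_log_iff_exp_le (by linarith)]
    have := Real.exp_one_lt_d9
    linarith
  have hσL : σ ≤ L := Real.log_le_log (by linarith) (by linarith)
  set B : ℕ := ⌈C * (1 + σ)⌉₊ + 1 with hBd
  have hB1 : 1 ≤ B := by omega
  have hBlow : C * (1 + σ) ≤ B := by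
    rw [hBd]
    push_cast
    linarith [Nat.le_ceil (C * (1 + σ))]
  have hBup : (B : ℝ) ≤ (2 * C + 2) * L := by
    rw [hBd]
    push_cast
    have h1 := Nat.ceil_lt_add_one (show 0 ≤ C * (1 + σ) by positivity)
    have h2 : C * (1 + σ) ≤ C * (2 * L) := by
      apply mul_le_mul_of_nonneg_left _ hC.le
      linarith
    nlinarith
  have ha := hCB σ hσ B hB1 hBlow
  have hlam : (q + 1) ^ B ≤ 2 ^ (B * Q) := by
    calc (q + 1) ^ B ≤ (2 ^ Q) ^ B := by
          apply Nat.pow_le_pow_left
          calc q + 1 ≤ 2 ^ Nat.clog 2 (q + 1) := Nat.le_pow_clog (by norm_num) _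
            _ ≤ 2 ^ Q := Nat.pow_le_pow_right (by norm_num) (by omega)
      _ = 2 ^ (B * Q) := by rw [← pow_mul, mul_comm]
  have hall := all_good s (q := q + 1) (lam := B * Q) (B := B)
    (φ := pot B (η / 2) (6 * Real.log 162 + 4 * σ)) (fun t => (hD t).trans (by omega))
    (by omega) hB1 hlam (fun l hl => by unfold pot; rw [if_pos hl])
    (fun l hl l1 l2 l3 l4 hs e1 e2 e3 e4 => pot_cut hB1 hσ ha hl hs e1 e2 e3 e4) (n + 1)
  have hg := hall.1 x 0 n (Nat.zero_le _) (by omega)
  have hpot : pot B (η / 2) (6 * Real.log 162 + 4 * σ) (n - 0) ≤ η / 2 * n := by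
    unfold pot
    split_ifs with h
    · positivity
    · have : (1 : ℝ) ≤ ((n - 0 : ℕ) : ℝ) := by
        have : 1 ≤ n - 0 := by omega
        exact_mod_cast this
      have h1 := Real.log_nonneg this
      have h2 : 0 ≤ Real.log 162 := Real.log_nonneg (by norm_num)
      simp only [Nat.sub_zero] at *
      nlinarith
  have hg' := hg.mono hpot
  unfold Good at hg'
  have h1 : Real.exp (η * n) ≤ Real.exp (η / 2 * n) * (RR (Wf s x 0 n) : ℝ) ^ (B * Q) :=
    hn.trans hg'
  have h2 : Real.exp (η / 2 * n) ≤ (RR (Wf s x 0 n) : ℝ) ^ (B * Q) := by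
    have e : Real.exp (η * n) = Real.exp (η / 2 * n) * Real.exp (η / 2 * n) := by
      rw [← Real.exp_add]; ring_nf
    rw [e] at h1
    exact le_of_mul_le_mul_left h1 (Real.exp_pos _)
  have hne : (Wf s x 0 n).Nonempty := by
    rw [← Finset.card_pos]
    have : (0 : ℝ) < ((Wf s x 0 n).card : ℝ) := lt_of_lt_of_le (Real.exp_pos _) hn
    exact_mod_cast this
  have hRR : (0 : ℝ) < (RR (Wf s x 0 n) : ℝ) := by
    have := one_le_RR hne
    exact_mod_cast this
  rw [← Real.le_log_iff_exp_le (by positivity), Real.log_pow] at h2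
  rw [← Real.le_log_iff_exp_le hRR]
  have hBQ : (0 : ℝ) < ((B * Q : ℕ) : ℝ) := by
    push_cast
    have : (1 : ℝ) ≤ B := by exact_mod_cast hB1
    positivity
  have h3 : η / 2 * n / ((B * Q : ℕ) : ℝ) ≤ Real.log (RR (Wf s x 0 n)) := by
    rw [div_le_iff₀ hBQ]
    linarith
  refine le_trans ?_ h3
  have hLp : 0 < L := by linarith
  rw [div_le_div_iff₀ hLp hBQ]
  push_cast
  rw [div_mul_eq_mul_div, div_mul_eq_mul_div, div_le_iff₀ (by positivity)]
  have h5 : (B : ℝ) * Q ≤ (2 * C + 2) * L * Q := mul_le_mul_of_nonneg_right hBup hQpos.le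
  have hn0 : (0 : ℝ) ≤ n := by positivity
  have h6 : η * n * (B * Q) ≤ η * n * ((2 * C + 2) * L * Q) :=
    mul_le_mul_of_nonneg_left h5 (by positivity)
  calc η * n * (B * Q) ≤ η * n * ((2 * C + 2) * L * Q) := h6
    _ = η / 2 * n * L * (2 * Q * (2 * C + 2)) := by ring

end

end Pool.Agent.Helper12.CF
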