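import Pool.Agent.Helper12.CF.Base

/-!
Context-free sets have representation functions which are larger than a power infinitely often.
-/

namespace Pool.Agent.Helper12.CF

open Finset Filter

noncomputable section

lemma rep_le (A : Set ℕ) (N : ℕ) : rep A N ≤ N + 1 := by
  unfold rep
  have h := Set.ncard_le_ncard (s := {p : ℕ × ℕ | p.1 ∈ A ∧ p.2 ∈ A ∧ p.1 + p.2 = N})
    (t := (Finset.HasAntidiagonal.antidiagonal N : Finset (ℕ × ℕ)))
    (by
      rintro p ⟨_, _, h⟩
      exact Finset.mem_coe.2 (Finset.HasAntidiagonal.mem_antidiagonal.2 h))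
    (Finset.finite_toSet _)
  rw [Set.ncard_coe_finset, Finset.Nat.card_antidiagonal] at h
  exact h

/-- The members of the context-free set below `x`. -/
def bel (k : ℕ) (L : Language ℕ) (x : ℕ) : Set ℕ := {m | m < x ∧ Nat.digits k m ∈ L}

lemma bel_finite (k : ℕ) (L : Language ℕ) (x : ℕ) : (bel k L x).Finite :=
  Set.Finite.subset (Finset.finite_toSet (range x))
    (fun _ hm => Finset.mem_coe.2 (Finset.mem_range.2 hm.1))

lemma bel_succ (k : ℕ) (L : Language ℕ) (n : ℕ) :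
    (bel k L (k ^ (n + 1))).ncard ≤ (bel k L (k ^ n)).ncard + (sl k L (n + 1)).ncard := by
  refine (Set.ncard_le_ncard ?_ ((bel_finite k L _).union (sl_finite k L _))).trans
    (Set.ncard_union_le _ _)
  rintro m ⟨h1, h2⟩
  rcases Nat.lt_or_ge m (k ^ n) with h | h
  · exact Or.inl ⟨h, h2⟩
  · exact Or.inr ⟨by simpa using h, h1, h2⟩

/-- A thick context-free set has infinitely many thick levels. -/
lemma thick_levels (k : ℕ) (hk : 2 ≤ k) (L : Language ℕ) {δ : ℝ} (hδ : 0 < δ)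
    (h : ∃ᶠ x : ℕ in atTop, (x : ℝ) ^ δ ≤ ((bel k L x).ncard : ℝ)) :
    ∃ᶠ n : ℕ in atTop, (k : ℝ) ^ (δ / 2 * n) ≤ ((sl k L n).ncard : ℝ) := by
  have hk1 : (1 : ℝ) < k := by
    have : 1 < k := by omega
    exact_mod_cast this
  have hk0 : (0 : ℝ) < k := by linarith
  by_contra hcon
  rw [not_frequently, eventually_atTop] at hcon
  obtain ⟨n0, hn0⟩ := hcon
  have hS : ∀ n, n0 ≤ n → ((sl k L n).ncard : ℝ) ≤ (k : ℝ) ^ (δ / 2 * n) := by
    intro n hn
    exact (not_le.1 (hn0 n hn)).le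
  -- the bound for the counting function at powers of `k`
  have hb : ∀ j : ℕ, ((bel k L (k ^ (n0 + j))).ncard : ℝ) ≤
      (bel k L (k ^ n0)).ncard + j * (k : ℝ) ^ (δ / 2 * ((n0 + j : ℕ) : ℝ)) := by
    intro j
    induction j with
    | zero => simp
    | succ j ih =>
      have h1 : ((bel k L (k ^ (n0 + j + 1))).ncard : ℝ) ≤
          (bel k L (k ^ (n0 + j))).ncard + (sl k L (n0 + j + 1)).ncard := by
        exact_mod_cast bel_succ k L (n0 + j)
      have h2 := hS (n0 + j + 1) (by omega)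
      have h3 : (k : ℝ) ^ (δ / 2 * ((n0 + j : ℕ) : ℝ)) ≤
          (k : ℝ) ^ (δ / 2 * ((n0 + j + 1 : ℕ) : ℝ)) := by
        apply Real.rpow_le_rpow_of_exponent_le hk1.le
        apply mul_le_mul_of_nonneg_left _ (by positivity)
        push_cast
        linarith
      have h4 : (j : ℝ) * (k : ℝ) ^ (δ / 2 * ((n0 + j : ℕ) : ℝ)) ≤
          j * (k : ℝ) ^ (δ / 2 * ((n0 + j + 1 : ℕ) : ℝ)) :=
        mul_le_mul_of_nonneg_left h3 (by positivity)
      rw [show n0 + (j + 1) = n0 + j + 1 by ring,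
        show ((j + 1 : ℕ) : ℝ) = (j : ℝ) + 1 by push_cast; ring, add_mul, one_mul]
      linarith
  -- contradiction for large `x`
  set K : ℝ := ((bel k L (k ^ n0)).ncard : ℝ) with hK
  have hK0 : 0 ≤ K := by rw [hK]; positivity
  have hlim : ∀ᶠ n : ℕ in atTop, K + n * (k : ℝ) ^ (δ / 2 * (n : ℝ)) < (k : ℝ) ^ (δ * (n - 1 : ℝ)) := by
    have e1 : Tendsto (fun n : ℕ => (k : ℝ) ^ (δ / 2 * (n : ℝ)) / (n : ℝ)) atTop atTop := by
      have h1 := tendsto_exp_div_rpow_atTop 1
      have h2 : Tendsto (fun n : ℕ => (δ / 2 * Real.log k) * (n : ℝ)) atTop atTop := by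
        apply Tendsto.const_mul_atTop _ tendsto_natCast_atTop_atTop
        have := Real.log_pos hk1
        positivity
      have h3 := h1.comp h2
      have h4 := h3.const_mul_atTop (show 0 < δ / 2 * Real.log k by
        have := Real.log_pos hk1
        positivity)
      refine h4.congr ?_
      intro n
      simp only [Function.comp_apply, Real.rpow_one]
      have hl := Real.log_pos hk1
      rcases Nat.eq_zero_or_pos n with h0 | h0
      · subst h0; simp
      · have hn : (0 : ℝ) < n := by exact_mod_cast h0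
        rw [Real.rpow_def_of_pos hk0]
        rw [show Real.log k * (δ / 2 * (n : ℝ)) = δ / 2 * Real.log k * (n : ℝ) by ring]
        field_simp
    have e2 := e1.eventually_gt_atTop ((K + 1) * (k : ℝ) ^ δ)
    filter_upwards [e2, eventually_ge_atTop 1] with n hn hn1
    have hnR : (1 : ℝ) ≤ n := by exact_mod_cast hn1
    have hnp : (0 : ℝ) < n := by linarith
    rw [lt_div_iff₀ hnp] at hn
    have hkd : 0 < (k : ℝ) ^ δ := Real.rpow_pos_of_pos hk0 _
    have hkn : 1 ≤ (k : ℝ) ^ (δ / 2 * (n : ℝ)) :=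
      Real.one_le_rpow hk1.le (by positivity)
    have e3 : (k : ℝ) ^ (δ * ((n : ℝ) - 1)) * (k : ℝ) ^ δ =
        (k : ℝ) ^ (δ / 2 * (n : ℝ)) * (k : ℝ) ^ (δ / 2 * (n : ℝ)) := by
      rw [← Real.rpow_add hk0, ← Real.rpow_add hk0]
      congr 1
      ring
    have e4 : (K + n * (k : ℝ) ^ (δ / 2 * (n : ℝ))) * (k : ℝ) ^ δ <
        (k : ℝ) ^ (δ * ((n : ℝ) - 1)) * (k : ℝ) ^ δ := by
      rw [e3]
      have s1 : K ≤ K * n * (k : ℝ) ^ (δ / 2 * (n : ℝ)) := by
        have : K * 1 * 1 ≤ K * n * (k : ℝ) ^ (δ / 2 * (n : ℝ)) := by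
          apply mul_le_mul _ hkn (by norm_num) (by positivity)
          exact mul_le_mul_of_nonneg_left hnR hK0
        simpa using this
      have s2 : K + n * (k : ℝ) ^ (δ / 2 * (n : ℝ)) ≤
          (K + 1) * n * (k : ℝ) ^ (δ / 2 * (n : ℝ)) := by
        linarith
      calc (K + n * (k : ℝ) ^ (δ / 2 * (n : ℝ))) * (k : ℝ) ^ δ
          ≤ ((K + 1) * n * (k : ℝ) ^ (δ / 2 * (n : ℝ))) * (k : ℝ) ^ δ :=
            mul_le_mul_of_nonneg_right s2 hkd.le
        _ = ((K + 1) * (k : ℝ) ^ δ * n) * (k : ℝ) ^ (δ / 2 * (n : ℝ)) := by ring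
        _ < (k : ℝ) ^ (δ / 2 * (n : ℝ)) * (k : ℝ) ^ (δ / 2 * (n : ℝ)) :=
            mul_lt_mul_of_pos_right hn (by linarith)
    exact lt_of_mul_lt_mul_right e4 hkd.le
  obtain ⟨n1, hn1⟩ := eventually_atTop.1 hlim
  obtain ⟨x, hx1, hx2⟩ := (frequently_atTop.1 h) (k ^ (n0 + n1 + 1))
  -- the power of `k` above `x`
  have hx0 : x ≠ 0 := by
    have : 0 < k ^ (n0 + n1 + 1) := by positivity
    omega
  set n := Nat.log k x + 1 with hn
  have hlog : n0 + n1 + 1 ≤ Nat.log k x := Nat.le_log_of_pow_le (by omega) hx1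
  have hup : x < k ^ n := Nat.lt_pow_succ_log_self (by omega) x
  have hlow : k ^ (n - 1) ≤ x := by
    rw [hn]
    simpa using Nat.pow_log_le_self k hx0
  have hbx : ((bel k L x).ncard : ℝ) ≤ ((bel k L (k ^ n)).ncard : ℝ) := by
    have : (bel k L x).ncard ≤ (bel k L (k ^ n)).ncard :=
      Set.ncard_le_ncard (fun m hm => ⟨hm.1.trans hup, hm.2⟩) (bel_finite k L _)
    exact_mod_cast this
  obtain ⟨j, hj⟩ := Nat.exists_eq_add_of_le (show n0 ≤ n by omega)
  have h1 := hb j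
  rw [← hj] at h1
  have h2 := hn1 n (by omega)
  have h3 : (j : ℝ) * (k : ℝ) ^ (δ / 2 * (n : ℝ)) ≤ n * (k : ℝ) ^ (δ / 2 * (n : ℝ)) := by
    apply mul_le_mul_of_nonneg_right _ (Real.rpow_nonneg hk0.le _)
    have : j ≤ n := by omega
    exact_mod_cast this
  have h4 : (k : ℝ) ^ (δ * ((n : ℝ) - 1)) ≤ (x : ℝ) ^ δ := by
    have e : (k : ℝ) ^ (δ * ((n : ℝ) - 1)) = ((k ^ (n - 1) : ℕ) : ℝ) ^ δ := by
      push_cast
      rw [← Real.rpow_natCast, ← Real.rpow_mul hk0.le]
      congr 1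
      rw [Nat.cast_sub (by omega)]
      push_cast
      ring
    rw [e]
    apply Real.rpow_le_rpow (by positivity) _ hδ.le
    exact_mod_cast hlow
  linarith

/-- **Context-free sets have large representation functions.** -/
theorem cf_power (k : ℕ) (hk : 2 ≤ k) (L : Language ℕ) (hL : L.IsContextFree) (A : Set ℕ)
    (hA : ∀ᶠ m : ℕ in atTop, Nat.digits k m ∈ L → m ∈ A) {δ : ℝ} (hδ : 0 < δ)
    (h : ∃ᶠ x : ℕ in atTop, (x : ℝ) ^ δ ≤ ((bel k L x).ncard : ℝ)) :
    ∃ c : ℝ, 0 < c ∧ ∃ᶠ N : ℕ in atTop, (N : ℝ) ^ c ≤ (rep A N : ℝ) := by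
  have hk1 : (1 : ℝ) < k := by
    have : 1 < k := by omega
    exact_mod_cast this
  have hk0 : (0 : ℝ) < k := by linarith
  have hlk := Real.log_pos hk1
  obtain ⟨g, rfl⟩ := hL
  obtain ⟨c, hc, H⟩ := cf_scale k hk (show 0 < δ / 2 by positivity)
  have hf := thick_levels k hk g.language hδ h
  have hls : 0 < Real.log (2 + gsize g) := by
    apply Real.log_pos
    have : (0 : ℝ) ≤ gsize g := by positivity
    linarith
  set c' : ℝ := c / Real.log (2 + gsize g) with hc'
  have hc'0 : 0 < c' := by positivity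
  refine ⟨c' / (2 * Real.log k), by positivity, ?_⟩
  obtain ⟨m0, hm0⟩ := eventually_atTop.1 hA
  rw [frequently_atTop]
  intro N0
  -- choose a large level
  have hbig : ∀ᶠ n : ℕ in atTop, (N0 : ℝ) + 1 < Real.exp (c' * n) := by
    have t1 : Tendsto (fun n : ℕ => c' * (n : ℝ)) atTop atTop :=
      Tendsto.const_mul_atTop hc'0 tendsto_natCast_atTop_atTop
    exact (Real.tendsto_exp_atTop.comp t1).eventually_gt_atTop _
  have hlev : ∀ᶠ n : ℕ in atTop, m0 ≤ k ^ (n - 1) := by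
    filter_upwards [eventually_ge_atTop (m0 + 1)] with n hn
    have h1 : n - 1 < k ^ (n - 1) := Nat.lt_pow_self (by omega)
    omega
  obtain ⟨n, hn1, hn2, hn3, hn4⟩ :=
    (hf.and_eventually (hbig.and (hlev.and (eventually_ge_atTop 1)))).exists
  obtain ⟨N, hN1, hN2⟩ := H g n A hn4
    (fun m hm => hm0 m (hn3.trans hm.1) hm.2.2) hn1
  have e0 : c * n / Real.log (2 + gsize g) = c' * n := by rw [hc']; ring
  rw [e0] at hN2
  refine ⟨N, ?_, ?_⟩
  · have h1 : (rep A N : ℝ) ≤ (N : ℝ) + 1 := by exact_mod_cast rep_le A N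
    have h2 : (N0 : ℝ) < N := by linarith
    have : N0 < N := by exact_mod_cast h2
    exact this.le
  · refine le_trans ?_ hN2
    have hNle : (N : ℝ) ≤ (k : ℝ) ^ ((2 : ℝ) * n) := by
      have h1 : N ≤ k ^ (2 * n) := by
        calc N ≤ 2 * k ^ n := hN1.le
          _ ≤ k ^ n * k ^ n := by
            apply Nat.mul_le_mul_right
            calc 2 ≤ k := hk
              _ = k ^ 1 := (pow_one k).symm
              _ ≤ k ^ n := Nat.pow_le_pow_right (by omega) hn4
          _ = k ^ (2 * n) := by rw [two_mul, pow_add]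
      have h2 : (N : ℝ) ≤ (k : ℝ) ^ (2 * n) := by exact_mod_cast h1
      refine h2.trans (le_of_eq ?_)
      rw [← Real.rpow_natCast]
      push_cast
      rfl
    calc (N : ℝ) ^ (c' / (2 * Real.log k))
        ≤ ((k : ℝ) ^ ((2 : ℝ) * n)) ^ (c' / (2 * Real.log k)) :=
          Real.rpow_le_rpow (by positivity) hNle (by positivity)
      _ = Real.exp (c' * n) := by
          rw [← Real.rpow_mul hk0.le, Real.rpow_def_of_pos hk0]
          congr 1
          field_simp

/-- A set with the same elements as a context-free set of numerals, up to finitely many, and with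
at least `x ^ δ` elements below `x` for infinitely many `x`. -/
theorem cf_unbounded (k : ℕ) (hk : 2 ≤ k) (L : Language ℕ) (hL : L.IsContextFree) (A : Set ℕ)
    (hA : ∀ᶠ m : ℕ in atTop, Nat.digits k m ∈ L → m ∈ A) {δ : ℝ} (hδ : 0 < δ)
    (h : ∃ᶠ x : ℕ in atTop, (x : ℝ) ^ δ ≤ ((bel k L x).ncard : ℝ)) (R : ℕ) :
    ∃ N, R < rep A N := by
  obtain ⟨c, hc, hf⟩ := cf_power k hk L hL A hA hδ h
  have t1 : Tendsto (fun N : ℕ => (N : ℝ) ^ c) atTop atTop :=
    (tendsto_rpow_atTop hc).comp tendsto_natCast_atTop_atTop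
  obtain ⟨N, hN1, hN2⟩ := (hf.and_eventually (t1.eventually_gt_atTop (R : ℝ))).exists
  refine ⟨N, ?_⟩
  have : (R : ℝ) < rep A N := lt_of_lt_of_le hN2 hN1
  exact_mod_cast this

end

end Pool.Agent.Helper12.CF
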