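import Pool.Agent.Helper12.CF.Gram

/-!
Representation functions of sets given by context-free grammars: general positional weights.
-/

namespace Pool.Agent.Helper12.CF

open Finset

noncomputable section

/-- The number of ordered pairs of elements of `A` with sum `N`. -/
def rep (A : Set ℕ) (N : ℕ) : ℕ := {p : ℕ × ℕ | p.1 ∈ A ∧ p.2 ∈ A ∧ p.1 + p.2 = N}.ncard

lemma rep_finite (A : Set ℕ) (N : ℕ) :
    {p : ℕ × ℕ | p.1 ∈ A ∧ p.2 ∈ A ∧ p.1 + p.2 = N}.Finite := by
  refine Set.Finite.subset (Finset.finite_toSet (Finset.HasAntidiagonal.antidiagonal N)) ?_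
  rintro p ⟨_, _, h⟩
  exact Finset.mem_coe.2 (Finset.HasAntidiagonal.mem_antidiagonal.2 h)

lemma rep_mono {A B : Set ℕ} (h : A ⊆ B) (N : ℕ) : rep A N ≤ rep B N := by
  unfold rep
  refine Set.ncard_le_ncard ?_ (rep_finite B N)
  rintro q ⟨h1, h2, h3⟩
  exact ⟨h h1, h h2, h3⟩

variable {T : Type}

/-- The value `∑ i, U i (w i)` of a word. -/
def value (U : ℕ → T → ℕ) (w : List T) : ℕ := (w.mapIdx U).sum

/-- The words of length `n` of the language of `g` whose letter at the position `i` belongs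
to `Al i`. -/
def Wd (g : ContextFreeGrammar T) (Al : ℕ → Finset T) (n : ℕ) : Set (List T) :=
  {w | w ∈ g.language ∧ w.length = n ∧ ∀ (i : ℕ) (h : i < w.length), w[i] ∈ Al i}

lemma ok_iff (Al : ℕ → Finset T) (i : ℕ) (w : List T) :
    Ok Al i w ↔ ∀ (j : ℕ) (h : j < w.length), w[j] ∈ Al (i + j) := by
  induction w generalizing i with
  | nil => simp [Ok]
  | cons a w ih =>
    simp only [Ok]
    rw [ih (i + 1)]
    constructor
    · rintro ⟨h1, h2⟩ j hj
      rcases j with _ | j
      · simpa using h1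
      · have := h2 j (by simpa using hj)
        rw [List.getElem_cons_succ]
        rwa [show i + (j + 1) = i + 1 + j by ring]
    · intro h
      constructor
      · have := h 0 (by simp)
        rw [List.getElem_cons_zero] at this
        simpa using this
      · intro j hj
        have := h (j + 1) (by simpa using hj)
        rw [List.getElem_cons_succ] at this
        rwa [show i + 1 + j = i + (j + 1) by ring]

lemma sum_pl (U : ℕ → T → ℕ) (w : List T) : ∀ (i m : ℕ), i + w.length ≤ m →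
    ∑ t ∈ range m, pl U i w t = (w.mapIdx (fun j a => U (i + j) a)).sum := by
  induction w with
  | nil => intro i m _; simp [pl]
  | cons a w ih =>
    intro i m hm
    rw [List.length_cons] at hm
    simp only [pl, Pi.add_apply, Finset.sum_add_distrib]
    rw [ih (i + 1) m (by omega), List.mapIdx_cons, List.sum_cons]
    congr 1
    · rw [Finset.sum_pi_single']
      simp
      omega
    · congr 2
      funext j a
      rw [show i + 1 + j = i + (j + 1) by ring]

lemma value_eq (U : ℕ → T → ℕ) (w : List T) :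
    value U w = ∑ t ∈ range w.length, pl U 0 w t := by
  rw [sum_pl U w 0 w.length (by omega)]
  unfold value
  congr 2
  funext j a
  rw [zero_add]

/-- The start label. -/
def start (g : ContextFreeGrammar T) : {γ // γ ∈ lab g} :=
  ⟨[Symbol.nonterminal g.initial], start_mem_lab⟩

lemma mem_Wf_iff (g : ContextFreeGrammar T) (U : ℕ → T → ℕ) (Al : ℕ → Finset T) (n : ℕ)
    (f : ℕ → ℕ) : f ∈ Wf (gsys g U Al) (start g) 0 n ↔ ∃ w ∈ Wd g Al n, f = pl U 0 w := by
  rw [mem_Wf]
  constructor
  · rintro ⟨l, h1, h2, h3, rfl⟩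
    refine ⟨l, ⟨(gen_iff_mem l).1 h1, by omega, ?_⟩, rfl⟩
    rw [ok_iff] at h3
    simpa using h3
  · rintro ⟨l, ⟨h1, h2, h3⟩, rfl⟩
    refine ⟨l, (gen_iff_mem l).2 h1, by omega, ?_, rfl⟩
    rw [ok_iff]
    simpa using h3

/-- **Main inequality for context-free grammars.** -/
theorem cf_words (q : ℕ) {η : ℝ} (hη : 0 < η) : ∃ c : ℝ, 0 < c ∧
    ∀ (T : Type) (g : ContextFreeGrammar T) (U : ℕ → T → ℕ) (Al : ℕ → Finset T) (n : ℕ)
      (A : Set ℕ), (∀ t, (Al t).card ≤ q) → (∀ w ∈ Wd g Al n, value U w ∈ A) →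
      Set.InjOn (value U) (Wd g Al n) → Real.exp (η * n) ≤ ((Wd g Al n).ncard : ℝ) →
      ∃ N, Real.exp (c * n / Real.log (2 + gsize g)) ≤ (rep A N : ℝ) := by
  classical
  obtain ⟨c, hc, H⟩ := sys_main q hη
  refine ⟨c / 2, by positivity, ?_⟩
  intro T g U Al n A hAl hA hinj hn
  have hD : ∀ t, (Dv U Al t).card ≤ q := fun t => Finset.card_image_le.trans (hAl t)
  set S := Wf (gsys g U Al) (start g) 0 n with hS
  -- the sum is injective on `S`
  have hsumval : ∀ w ∈ Wd g Al n, ∑ t ∈ range n, pl U 0 w t = value U w := by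
    intro w hw
    rw [value_eq, hw.2.1]
  have hSinj : ∀ f ∈ S, ∀ f' ∈ S, ∑ t ∈ range n, f t = ∑ t ∈ range n, f' t → f = f' := by
    intro f hf f' hf' h
    obtain ⟨w, hw, rfl⟩ := (mem_Wf_iff g U Al n f).1 hf
    obtain ⟨w', hw', rfl⟩ := (mem_Wf_iff g U Al n f').1 hf'
    rw [hsumval w hw, hsumval w' hw'] at h
    rw [hinj hw hw' h]
  have hcard : (Wd g Al n).ncard ≤ S.card := by
    rw [← Set.ncard_coe_finset]
    refine Set.ncard_le_ncard_of_injOn (fun w => pl U 0 w) ?_ ?_ (Finset.finite_toSet S)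
    · intro w hw
      exact Finset.mem_coe.2 ((mem_Wf_iff g U Al n _).2 ⟨w, hw, rfl⟩)
    · intro w hw w' hw' h
      apply hinj hw hw'
      rw [← hsumval w hw, ← hsumval w' hw']
      simp only at h
      rw [h]
  have hn' : Real.exp (η * n) ≤ (S.card : ℝ) := hn.trans (by exact_mod_cast hcard)
  have hR := H {γ // γ ∈ lab g} (Dv U Al) hD (gsys g U Al) (start g) n hn'
  have hSne : S.Nonempty := by
    rw [← Finset.card_pos]
    have : (0 : ℝ) < (S.card : ℝ) := lt_of_lt_of_le (Real.exp_pos _) hn'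
    exact_mod_cast this
  obtain ⟨M, hM⟩ := exists_rp hSne
  refine ⟨∑ t ∈ range n, M t, ?_⟩
  have hrep : rp S M ≤ rep A (∑ t ∈ range n, M t) := by
    unfold rp rep
    rw [← Set.ncard_coe_finset]
    refine Set.ncard_le_ncard_of_injOn
      (fun p : (ℕ → ℕ) × (ℕ → ℕ) => (∑ t ∈ range n, p.1 t, ∑ t ∈ range n, p.2 t)) ?_ ?_
      (rep_finite A _)
    · intro p hp
      rw [Finset.mem_coe, Finset.mem_filter, Finset.mem_product] at hp
      obtain ⟨⟨h1, h2⟩, h3⟩ := hp
      obtain ⟨w, hw, e⟩ := (mem_Wf_iff g U Al n _).1 h1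
      obtain ⟨w', hw', e'⟩ := (mem_Wf_iff g U Al n _).1 h2
      refine ⟨?_, ?_, ?_⟩
      · simp only
        rw [e, hsumval w hw]
        exact hA w hw
      · simp only
        rw [e', hsumval w' hw']
        exact hA w' hw'
      · simp only
        rw [← h3, ← Finset.sum_add_distrib]
        rfl
    · intro p hp p' hp' h
      rw [Finset.mem_coe, Finset.mem_filter, Finset.mem_product] at hp hp'
      have h1 := congrArg Prod.fst h
      have h2 := congrArg Prod.snd h
      simp only at h1 h2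
      exact Prod.ext (hSinj _ hp.1.1 _ hp'.1.1 h1) (hSinj _ hp.1.2 _ hp'.1.2 h2)
  have hR2 : (RR S : ℝ) ≤ (rep A (∑ t ∈ range n, M t) : ℝ) := by
    rw [← hM]
    exact_mod_cast hrep
  refine le_trans ?_ (hR.trans hR2)
  apply Real.exp_le_exp.2
  have hl2 : (0 : ℝ) < Real.log (2 + gsize g) := by
    apply Real.log_pos
    have : (0 : ℝ) ≤ gsize g := by positivity
    linarith
  have hcX : ((Fintype.card {γ // γ ∈ lab g} : ℕ) : ℝ) ≤ 2 + 2 * gsize g := by
    rw [Fintype.card_coe]
    exact_mod_cast card_lab_le g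
  have hX0 : (0 : ℝ) ≤ ((Fintype.card {γ // γ ∈ lab g} : ℕ) : ℝ) := by positivity
  have hl1 : (0 : ℝ) < Real.log (2 + (Fintype.card {γ // γ ∈ lab g} : ℕ)) := by
    apply Real.log_pos
    linarith
  have hle : Real.log (2 + (Fintype.card {γ // γ ∈ lab g} : ℕ)) ≤
      2 * Real.log (2 + gsize g) := by
    have hg0 : (0 : ℝ) ≤ gsize g := by positivity
    calc Real.log (2 + (Fintype.card {γ // γ ∈ lab g} : ℕ))
        ≤ Real.log ((2 + gsize g) ^ 2) := by
          apply Real.log_le_log (by linarith)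
          nlinarith
      _ = 2 * Real.log (2 + gsize g) := by
          rw [Real.log_pow]
          norm_num
  rw [div_le_div_iff₀ hl2 hl1]
  have hn0 : (0 : ℝ) ≤ n := by positivity
  have hcn : 0 ≤ c / 2 * n := by positivity
  calc c / 2 * n * Real.log (2 + (Fintype.card {γ // γ ∈ lab g} : ℕ))
      ≤ c / 2 * n * (2 * Real.log (2 + gsize g)) := mul_le_mul_of_nonneg_left hle hcn
    _ = c * n * Real.log (2 + gsize g) := by ring

end

end Pool.Agent.Helper12.CF
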