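import Pool.Agent.Helper12.CF.Choice

/-!
The product inequality for any order of the digits.
-/

namespace Pool.Agent.Helper12.CF

open Finset Filter

noncomputable section

/-- The value of a word of `n` digits when the letter `i` is the digit number `π i`. -/
def oval {k n : ℕ} (π : Equiv.Perm (Fin n)) (f : Fin n → Fin k) : ℕ :=
  ∑ i, (f i).1 * k ^ (π i).1

/-- Digits in the natural order. -/
lemma oval_eq {k n : ℕ} (π : Equiv.Perm (Fin n)) (f : Fin n → Fin k) :
    oval π f = ∑ i, (f (π.symm i)).1 * k ^ i.1 := by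
  unfold oval
  rw [← Equiv.sum_comp π.symm]
  simp

lemma oval_one {k n : ℕ} (f : Fin n → Fin k) :
    oval (Equiv.refl _) f = Nat.ofDigits k (List.ofFn (fun i => (f i).1)) := by
  rw [Nat.ofDigits_eq_sum_mapIdx]
  unfold oval
  have h : (List.ofFn (fun i => (f i).1)).mapIdx (fun i a => a * k ^ i) =
      List.ofFn (fun i : Fin n => (f i).1 * k ^ i.1) := by
    apply List.ext_getElem
    · simp
    · intro i h1 h2
      simp
  rw [h, List.sum_ofFn]
  rfl

lemma oval_lt {k n : ℕ} (hk : 2 ≤ k) (π : Equiv.Perm (Fin n)) (f : Fin n → Fin k) :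
    oval π f < k ^ n := by
  have h : oval π f = oval (Equiv.refl _) (fun i => f (π.symm i)) := by
    rw [oval_eq]
    rfl
  rw [h, oval_one]
  have := Nat.ofDigits_lt_base_pow_length (b := k)
    (l := List.ofFn (fun i => (f (π.symm i)).1)) (by omega) (by
      intro x hx
      rw [List.mem_ofFn] at hx
      obtain ⟨i, rfl⟩ := hx
      exact (f (π.symm i)).2)
  rwa [List.length_ofFn] at this

lemma oval_inj {k n : ℕ} (hk : 2 ≤ k) (π : Equiv.Perm (Fin n)) :
    Function.Injective (oval (k := k) π) := by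
  intro f f' h
  have e : ∀ f : Fin n → Fin k, oval π f = oval (Equiv.refl _) (fun i => f (π.symm i)) := by
    intro f
    rw [oval_eq]
    rfl
  rw [e f, e f', oval_one, oval_one] at h
  have h2 := Nat.ofDigits_inj_of_len_eq (b := k) (by omega) (by simp) (by
      intro x hx
      rw [List.mem_ofFn] at hx
      obtain ⟨i, rfl⟩ := hx
      exact (f (π.symm i)).2) (by
      intro x hx
      rw [List.mem_ofFn] at hx
      obtain ⟨i, rfl⟩ := hx
      exact (f' (π.symm i)).2) h
  have h3 := List.ofFn_injective h2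
  funext i
  have h4 := congrFun h3 (π i)
  simp only [Equiv.symm_apply_apply] at h4
  exact Fin.ext h4

/-- **The product inequality**, any grammar, any order of the digits. -/
theorem cf_order (k : ℕ) (hk : 2 ≤ k) {δ : ℝ} (hδ : 0 < δ) : ∃ c : ℝ, 0 < c ∧
    ∀ (g : ContextFreeGrammar (Fin k)) (n : ℕ) (π : Equiv.Perm (Fin n)) (A : Set ℕ),
      (∀ f : Fin n → Fin k, List.ofFn f ∈ g.language → oval π f ∈ A) →
      (k : ℝ) ^ (δ * n) ≤ ({f : Fin n → Fin k | List.ofFn f ∈ g.language}.ncard : ℝ) →
      ∃ N < 2 * k ^ n, Real.exp (c * n / Real.log (2 + gsize g)) ≤ (rep A N : ℝ) := by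
  classical
  have hk0 : (0 : ℝ) < k := by
    have : 0 < k := by omega
    exact_mod_cast this
  have hlogk : 0 < Real.log k := Real.log_pos (by
    have : 1 < k := by omega
    exact_mod_cast this)
  obtain ⟨c, hc, H⟩ := cf_words k (show 0 < δ * Real.log k by positivity)
  refine ⟨c, hc, ?_⟩
  intro g n π A hA hcard
  set U : ℕ → Fin k → ℕ := fun i a => if h : i < n then a.1 * k ^ (π ⟨i, h⟩).1 else 0 with hU
  set Al : ℕ → Finset (Fin k) := fun _ => univ with hAl
  have hW : ∀ w, w ∈ Wd g Al n ↔ ∃ f : Fin n → Fin k, List.ofFn f ∈ g.language ∧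
      w = List.ofFn f := by
    intro w
    constructor
    · rintro ⟨h1, h2, _⟩
      subst h2
      have e : List.ofFn (fun i : Fin w.length => w[i.1]) = w := List.ofFn_getElem
      exact ⟨fun i : Fin w.length => w[i.1], by rw [e]; exact h1, e.symm⟩
    · rintro ⟨f, hf, rfl⟩
      refine ⟨hf, List.length_ofFn, ?_⟩
      intro i hi
      rw [hAl]
      exact Finset.mem_univ _
  have hval : ∀ f : Fin n → Fin k, value U (List.ofFn f) = oval π f := by
    intro f
    unfold value oval
    have h : (List.ofFn f).mapIdx U =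
        List.ofFn (fun i : Fin n => (f i).1 * k ^ (π i).1) := by
      apply List.ext_getElem
      · simp
      · intro i h1 h2
        have hi : i < n := by simpa using h1
        rw [List.getElem_mapIdx, List.getElem_ofFn, List.getElem_ofFn]
        have hUi : ∀ a : Fin k, U i a = a.1 * k ^ (π ⟨i, hi⟩).1 := by
          intro a
          rw [hU]
          simp only
          rw [dif_pos hi]
        exact hUi _
    rw [h, List.sum_ofFn]
  set B : Set ℕ := {a | ∃ f : Fin n → Fin k, List.ofFn f ∈ g.language ∧ a = oval π f} with hB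
  have hBA : B ⊆ A := by
    rintro a ⟨f, hf, rfl⟩
    exact hA f hf
  have hinj : Set.InjOn (value U) (Wd g Al n) := by
    intro w hw w' hw' h
    obtain ⟨f, hf, rfl⟩ := (hW w).1 hw
    obtain ⟨f', hf', rfl⟩ := (hW w').1 hw'
    rw [hval, hval] at h
    rw [oval_inj hk π h]
  have himg : Wd g Al n = List.ofFn '' {f : Fin n → Fin k | List.ofFn f ∈ g.language} := by
    ext w
    rw [hW]
    constructor
    · rintro ⟨f, hf, rfl⟩
      exact ⟨f, hf, rfl⟩
    · rintro ⟨f, hf, rfl⟩
      exact ⟨f, hf, rfl⟩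
  have hnc : (Wd g Al n).ncard =
      {f : Fin n → Fin k | List.ofFn f ∈ g.language}.ncard := by
    rw [himg]
    exact Set.ncard_image_of_injective _ List.ofFn_injective
  obtain ⟨N, hN⟩ := H (Fin k) g U Al n B (by intro t; rw [hAl]; simp) (by
    intro w hw
    obtain ⟨f, hf, rfl⟩ := (hW w).1 hw
    rw [hval]
    exact ⟨f, hf, rfl⟩) hinj (by
    rw [hnc]
    refine le_trans (le_of_eq ?_) hcard
    rw [Real.rpow_def_of_pos hk0]
    congr 1
    ring)
  refine ⟨N, ?_, hN.trans (by exact_mod_cast rep_mono hBA N)⟩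
  apply lt_of_rep_pos (A := B)
  · rintro a ⟨f, _, rfl⟩
    exact oval_lt hk π f
  · have : (0 : ℝ) < rep B N := (Real.exp_pos _).trans_le hN
    exact_mod_cast this

end

end Pool.Agent.Helper12.CF
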