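import Pool.Agent.Helper12.CF.Sys

/-!
The counting inequality: `|S| ≤ exp (φ ℓ) * RR S ^ lam` for all word sets and context sets of
length `ℓ`, for every potential `φ` which pays for the cuts.
-/

namespace Pool.Agent.Helper12.CF

open Finset

noncomputable section

variable {X : Type} {D : ℕ → Finset ℕ}

open scoped Classical in
/-- The set of words with label `x` at the positions `[i, j)`. -/
def Wf (s : Sys X D) (x : X) (i j : ℕ) : Finset (ℕ → ℕ) := (boxF D (Ico i j)).filter (s.W x i j)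

open scoped Classical in
/-- The set of contexts from `(x, i, j)` to `(y, p, q)`. -/
def Cf (s : Sys X D) (x : X) (i j : ℕ) (y : X) (p q : ℕ) : Finset (ℕ → ℕ) :=
  (boxF D (Ico i j \ Ico p q)).filter (Ctx s x i j y p q)

lemma mem_Wf {s : Sys X D} {x : X} {i j : ℕ} {w : ℕ → ℕ} : w ∈ Wf s x i j ↔ s.W x i j w := by
  classical
  unfold Wf
  rw [Finset.mem_filter]
  exact ⟨fun h => h.2, fun h => ⟨s.supp h, h⟩⟩

lemma mem_Cf {s : Sys X D} {x : X} {i j : ℕ} {y : X} {p q : ℕ} {c : ℕ → ℕ} :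
    c ∈ Cf s x i j y p q ↔ Ctx s x i j y p q c := by
  classical
  unfold Cf
  rw [Finset.mem_filter]
  exact ⟨fun h => h.2, fun h => ⟨h.supp, h⟩⟩

lemma Wf_sub (s : Sys X D) (x : X) (i j : ℕ) : Wf s x i j ⊆ boxF D (Ico i j) := by
  classical
  exact Finset.filter_subset _ _

lemma Cf_sub (s : Sys X D) (x : X) (i j : ℕ) (y : X) (p q : ℕ) :
    Cf s x i j y p q ⊆ boxF D (Ico i j \ Ico p q) := by
  classical
  exact Finset.filter_subset _ _

/-- The inequality. -/
def Good (lam : ℕ) (e : ℝ) (S : Finset (ℕ → ℕ)) : Prop :=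
  (S.card : ℝ) ≤ Real.exp e * (RR S : ℝ) ^ lam

lemma Good.mono {lam : ℕ} {e e' : ℝ} {S : Finset (ℕ → ℕ)} (h : Good lam e S) (he : e ≤ e') :
    Good lam e' S := by
  unfold Good at h ⊢
  refine h.trans ?_
  exact mul_le_mul_of_nonneg_right (Real.exp_le_exp.2 he) (by positivity)

lemma good_small {lam : ℕ} {e : ℝ} (he : 0 ≤ e) {S : Finset (ℕ → ℕ)} (h : S.card ≤ 2 ^ lam) :
    Good lam e S := by
  unfold Good
  have h1 : (S.card : ℝ) ≤ (RR S : ℝ) ^ lam := by exact_mod_cast card_le_RR_pow h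
  have h2 : (1 : ℝ) ≤ Real.exp e := Real.one_le_exp he
  have h3 : (0 : ℝ) ≤ (RR S : ℝ) ^ lam := by positivity
  nlinarith

lemma pair_bound {lam : ℕ} {a b : ℝ} {S T U : Finset (ℕ → ℕ)} (hS : Good lam a S)
    (hT : Good lam b T) (hd : Dir S T) (hU : ∀ u ∈ S, ∀ v ∈ T, u + v ∈ U) :
    (S.card : ℝ) * T.card ≤ Real.exp (a + b) * (RR U : ℝ) ^ lam := by
  rcases S.eq_empty_or_nonempty with h | hSn
  · rw [h]; simp; positivity
  rcases T.eq_empty_or_nonempty with h | hTn
  · rw [h]; simp; positivity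
  have h1 : ((RR S * RR T : ℕ) : ℝ) ≤ (RR U : ℝ) := by exact_mod_cast RR_mul hSn hTn hd hU
  unfold Good at hS hT
  calc (S.card : ℝ) * T.card
      ≤ (Real.exp a * (RR S : ℝ) ^ lam) * (Real.exp b * (RR T : ℝ) ^ lam) :=
        mul_le_mul hS hT (by positivity) (by positivity)
    _ = Real.exp (a + b) * ((RR S * RR T : ℕ) : ℝ) ^ lam := by
        rw [Real.exp_add]; push_cast; ring
    _ ≤ _ := by
        apply mul_le_mul_of_nonneg_left _ (Real.exp_pos _).le
        exact pow_le_pow_left₀ (by positivity) h1 _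

lemma good_sm {lam : ℕ} {a b : ℝ} {S T U : Finset (ℕ → ℕ)} (hS : Good lam a S)
    (hT : Good lam b T) (hd : Dir S T) (hU : ∀ u ∈ S, ∀ v ∈ T, u + v ∈ U) :
    ((sm S T).card : ℝ) ≤ Real.exp (a + b) * (RR U : ℝ) ^ lam := by
  refine le_trans ?_ (pair_bound hS hT hd hU)
  exact_mod_cast card_sm_le S T

lemma dir_CW (s : Sys X D) (x : X) (i j : ℕ) (y : X) (p q : ℕ) :
    Dir (Cf s x i j y p q) (Wf s y p q) := by
  refine dir_of_disjoint (Cf_sub s x i j y p q) (Wf_sub s y p q) ?_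
  exact Finset.sdiff_disjoint

/-- All word sets and context sets of length less than `n` are good. -/
def Upto (s : Sys X D) (lam : ℕ) (φ : ℕ → ℝ) (n : ℕ) : Prop :=
  (∀ x i j, i ≤ j → j - i < n → Good lam (φ (j - i)) (Wf s x i j)) ∧
  (∀ x i j y p q, i ≤ p → p ≤ q → q ≤ j → j - i - (q - p) < n →
    Good lam (φ (j - i - (q - p))) (Cf s x i j y p q))

open scoped Classical in
/-- One cut of a word. -/
lemma word_step [Fintype X] (s : Sys X D) {lam : ℕ} {φ : ℕ → ℝ} {l : ℕ} (hl : 2 ≤ l)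
    (hu : Upto s lam φ l) {E : ℝ}
    (hE : ∀ l1 l2, l1 + l2 = l → 3 * l1 ≤ 2 * l → 3 * l2 ≤ 2 * l → φ l1 + φ l2 ≤ E)
    {x : X} {i j : ℕ} (hj : j = i + l) :
    ((Wf s x i j).card : ℝ) ≤
      ((Fintype.card X * (l + 1) ^ 2 : ℕ) : ℝ) * (Real.exp E * (RR (Wf s x i j) : ℝ) ^ lam) := by
  set T : Finset (X × ℕ × ℕ) := univ ×ˢ (Icc i j ×ˢ Icc i j) with hT
  set F : X × ℕ × ℕ → Finset (ℕ → ℕ) := fun t =>
    if i ≤ t.2.1 ∧ t.2.1 ≤ t.2.2 ∧ t.2.2 ≤ j ∧ l ≤ 3 * (t.2.2 - t.2.1) ∧
        3 * (t.2.2 - t.2.1) ≤ 2 * l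
    then sm (Cf s x i j t.1 t.2.1 t.2.2) (Wf s t.1 t.2.1 t.2.2) else ∅ with hF
  have hsub : Wf s x i j ⊆ T.biUnion F := by
    intro w hw
    obtain ⟨y, p, q, c, v, hc, hv, e, h3, h4⟩ := word_cut s hl l (mem_Wf.1 hw) hj (by omega)
    have hb := hc.bounds
    rw [Finset.mem_biUnion]
    refine ⟨(y, p, q), ?_, ?_⟩
    · rw [hT]
      simp only [Finset.mem_product, Finset.mem_univ, Finset.mem_Icc, true_and]
      omega
    · rw [hF]
      simp only
      rw [if_pos ⟨hb.1, hb.2.1, hb.2.2, h3, h4⟩]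
      exact mem_sm.2 ⟨c, mem_Cf.2 hc, v, mem_Wf.2 hv, e⟩
  have hcard : ∀ t ∈ T, ((F t).card : ℝ) ≤ Real.exp E * (RR (Wf s x i j) : ℝ) ^ lam := by
    rintro ⟨y, p, q⟩ _
    rw [hF]
    simp only
    split_ifs with h
    · obtain ⟨h1, h2, h3, h4, h5⟩ := h
      have g1 : Good lam (φ (j - i - (q - p))) (Cf s x i j y p q) :=
        hu.2 x i j y p q h1 h2 h3 (by omega)
      have g2 : Good lam (φ (q - p)) (Wf s y p q) := hu.1 y p q h2 (by omega)
      have hh := good_sm (U := Wf s x i j) g1 g2 (dir_CW s x i j y p q)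
        (fun u hu v hv => mem_Wf.2 ((mem_Cf.1 hu).fill (mem_Wf.1 hv)))
      refine hh.trans ?_
      apply mul_le_mul_of_nonneg_right _ (by positivity)
      apply Real.exp_le_exp.2
      apply hE <;> omega
    · simp; positivity
  have h1 : ((Wf s x i j).card : ℝ) ≤ ∑ t ∈ T, ((F t).card : ℝ) := by
    have := (Finset.card_le_card hsub).trans Finset.card_biUnion_le
    exact_mod_cast this
  refine h1.trans ((Finset.sum_le_card_nsmul _ _ _ hcard).trans ?_)
  rw [nsmul_eq_mul]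
  apply le_of_eq
  congr 2
  rw [hT]
  simp only [Finset.card_product, Finset.card_univ, Nat.card_Icc]
  rw [show j + 1 - i = l + 1 by omega]
  ring

open scoped Classical in
/-- One cut of a context. -/
lemma ctx_step [Fintype X] (s : Sys X D) {lam : ℕ} {φ : ℕ → ℝ} {l : ℕ} (hl : 2 ≤ l)
    (h0 : φ 0 = 0) (hu : Upto s lam φ l) {E : ℝ}
    (hE : ∀ l1 l2 l3 l4, l1 + l2 + l3 + l4 = l → 3 * l1 ≤ 2 * l → 3 * l2 ≤ 2 * l →
      3 * l3 ≤ 2 * l → 3 * l4 ≤ 2 * l → φ l1 + φ l2 + φ l3 + φ l4 ≤ E)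
    {x : X} {i j : ℕ} {y : X} {p q : ℕ} (hip : i ≤ p) (hpq : p ≤ q) (hqj : q ≤ j)
    (hlen : j - i - (q - p) = l) :
    ((Cf s x i j y p q).card : ℝ) ≤
      ((Fintype.card X ^ 4 * (l + 1) ^ 6 : ℕ) : ℝ) *
        (Real.exp E * (RR (Cf s x i j y p q) : ℝ) ^ lam) := by
  set T : Finset ((X × X × X) × (ℕ × ℕ) × (ℕ × ℕ)) :=
    univ ×ˢ ((Icc i p ×ˢ Icc q j) ×ˢ (Icc i p ×ˢ Icc q j)) with hT
  -- the side word
  set ef : (ℕ × ℕ) × (ℕ × ℕ) → ℕ × ℕ := fun t =>
    if t.2.1 = t.1.1 then (t.2.2, t.1.2) else (t.1.1, t.2.1) with hef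
  set F : (X × X × X) × (ℕ × ℕ) × (ℕ × ℕ) → Finset (ℕ → ℕ) := fun t =>
    if i ≤ t.2.1.1 ∧ t.2.1.2 ≤ j ∧ j - i ≤ t.2.1.2 - t.2.1.1 + l / 2 ∧
        t.2.2.1 ≤ p ∧ q ≤ t.2.2.2 ∧ t.2.2.2 - t.2.2.1 + l / 2 < j - i ∧
        Step s t.1.1 t.2.1.1 t.2.1.2 t.1.2.1 t.2.2.1 t.2.2.2 t.1.2.2 (ef t.2).1 (ef t.2).2
    then sm (Cf s x i j t.1.1 t.2.1.1 t.2.1.2)
      (sm (Wf s t.1.2.2 (ef t.2).1 (ef t.2).2) (Cf s t.1.2.1 t.2.2.1 t.2.2.2 y p q))
    else ∅ with hF
  have hsub : Cf s x i j y p q ⊆ T.biUnion F := by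
    intro w hw
    obtain ⟨x1, a, b, c1, y1, a', b', z, e, f, v, c2, k1, k2, k3, k4, k5, k6, k7⟩ :=
      ctx_cut (mem_Cf.1 hw) (l / 2) (by omega)
    have hb1 := k1.bounds
    have hb2 := k6.bounds
    have hef' : ef ((a, b), (a', b')) = (e, f) := by
      rw [hef]
      simp only
      rcases k3 with ⟨hg, e1, e2, e3⟩ | ⟨hg, e1, e2, e3⟩
      · rw [if_pos e1, e2, e3]
      · have := hg.1
        have hne : a' ≠ a := by omega
        rw [if_neg hne, e2, e3]
    have hin : i ≤ a' ∧ b' ≤ j := by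
      rcases k3 with ⟨hg, e1, e2, e3⟩ | ⟨hg, e1, e2, e3⟩
      · have := hg.1
        have := hg.2.1
        omega
      · have := hg.1
        have := hg.2.1
        omega
    have hin2 : a ≤ a' ∧ b' ≤ b := by
      rcases k3 with ⟨hg, e1, e2, e3⟩ | ⟨hg, e1, e2, e3⟩
      · have := hg.1
        have := hg.2.1
        omega
      · have := hg.1
        have := hg.2.1
        omega
    rw [Finset.mem_biUnion]
    refine ⟨((x1, y1, z), (a, b), (a', b')), ?_, ?_⟩
    · rw [hT]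
      simp only [Finset.mem_product, Finset.mem_univ, Finset.mem_Icc, true_and]
      omega
    · rw [hF]
      simp only
      rw [hef']
      rw [if_pos ⟨hb1.1, hb1.2.2, k2, hb2.1, hb2.2.2, k5, k3⟩]
      exact mem_sm.2 ⟨c1, mem_Cf.2 k1, c2 + v,
        mem_sm.2 ⟨v, mem_Wf.2 k4, c2, mem_Cf.2 k6, add_comm _ _⟩, k7⟩
  have hcard : ∀ t ∈ T, ((F t).card : ℝ) ≤
      ((Fintype.card X * (l + 1) ^ 2 : ℕ) : ℝ) *
        (Real.exp E * (RR (Cf s x i j y p q) : ℝ) ^ lam) := by
    rintro ⟨⟨x1, y1, z⟩, ⟨a, b⟩, ⟨a', b'⟩⟩ _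
    rw [hF]
    simp only
    split_ifs with h
    · obtain ⟨h1, h2, h3, h4, h5, h6, h7⟩ := h
      generalize hee : ef ((a, b), (a', b')) = g at h7 ⊢
      obtain ⟨e, f⟩ := g
      simp only at h7 ⊢
      have hX : 1 ≤ Fintype.card X := Fintype.card_pos_iff.2 ⟨x⟩
      -- positions
      have hpos : a ≤ a' ∧ b' ≤ b ∧ a' ≤ b' ∧ e ≤ f ∧ (b - a) = (b' - a') + (f - e) ∧
          Disjoint (Ico e f) (Ico a' b' \ Ico p q) ∧ Ico e f ⊆ Ico a b := by
        rcases h7 with ⟨hg, e1, e2, e3⟩ | ⟨hg, e1, e2, e3⟩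
        · have w1 := hg.1
          have w2 := hg.2.1
          refine ⟨by omega, by omega, by omega, by omega, by omega, ?_, ?_⟩
          · rw [Finset.disjoint_left]
            intro t ht ht'
            simp only [Finset.mem_sdiff, Finset.mem_Ico] at ht ht'
            omega
          · intro t ht
            simp only [Finset.mem_Ico] at ht ⊢
            omega
        · have w1 := hg.1
          have w2 := hg.2.1
          refine ⟨by omega, by omega, by omega, by omega, by omega, ?_, ?_⟩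
          · rw [Finset.disjoint_left]
            intro t ht ht'
            simp only [Finset.mem_sdiff, Finset.mem_Ico] at ht ht'
            omega
          · intro t ht
            simp only [Finset.mem_Ico] at ht ⊢
            omega
      obtain ⟨q1, q2, q3, q4, q5, q6, q7⟩ := hpos
      set o1 := j - i - (b - a) with ho1
      set o2 := b' - a' - (q - p) with ho2
      have g1 : Good lam (φ o1) (Cf s x i j x1 a b) :=
        hu.2 x i j x1 a b h1 (by omega) h2 (by omega)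
      have g2 : Good lam (φ o2) (Cf s y1 a' b' y p q) :=
        hu.2 y1 a' b' y p q h4 hpq h5 (by omega)
      -- the side word
      have g3 : Good lam (Real.log ((Fintype.card X * (l + 1) ^ 2 : ℕ) : ℝ) +
          (E - φ o1 - φ o2)) (Wf s z e f) := by
        have hKpos : (1 : ℝ) ≤ ((Fintype.card X * (l + 1) ^ 2 : ℕ) : ℝ) := by
          have : 1 ≤ Fintype.card X * (l + 1) ^ 2 :=
            Nat.one_le_iff_ne_zero.2 (by positivity)
          exact_mod_cast this
        rcases Nat.lt_or_ge (2 * l) (3 * (f - e)) with hbig | hsmall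
        · have ws := word_step s (lam := lam) (φ := φ) (l := f - e) (by omega)
            ⟨fun x i j hij hlt => hu.1 x i j hij (by omega),
              fun x i j y p q w1 w2 w3 w4 => hu.2 x i j y p q w1 w2 w3 (by omega)⟩
            (E := E - φ o1 - φ o2)
            (by
              intro l1 l2 e1 e2 e3
              have := hE o1 o2 l1 l2 (by omega) (by omega) (by omega) (by omega) (by omega)
              linarith) (x := z) (i := e) (j := f) (by omega)
          unfold Good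
          rw [Real.exp_add, Real.exp_log (by linarith)]
          refine ws.trans ?_
          rw [← mul_assoc]
          apply mul_le_mul_of_nonneg_right _ (by positivity)
          apply mul_le_mul_of_nonneg_right _ (Real.exp_pos _).le
          have : Fintype.card X * (f - e + 1) ^ 2 ≤ Fintype.card X * (l + 1) ^ 2 :=
            Nat.mul_le_mul_left _ (Nat.pow_le_pow_left (by omega) _)
          exact_mod_cast this
        · have g4 : Good lam (φ (f - e)) (Wf s z e f) := hu.1 z e f q4 (by omega)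
          refine g4.mono ?_
          have := hE o1 o2 (f - e) 0 (by omega) (by omega) (by omega) (by omega) (by omega)
          have hlog := Real.log_nonneg hKpos
          rw [h0] at this
          linarith
      -- combine
      have hd2 : Dir (Wf s z e f) (Cf s y1 a' b' y p q) :=
        dir_of_disjoint (Wf_sub s z e f) (Cf_sub s y1 a' b' y p q) q6
      have hU2 : ∀ u ∈ Wf s z e f, ∀ v ∈ Cf s y1 a' b' y p q, u + v ∈ Cf s x1 a b y p q := by
        intro u hu v hv
        rw [add_comm]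
        exact mem_Cf.2 (h7.ctx (mem_Wf.1 hu) (mem_Cf.1 hv))
      have b2 := pair_bound g3 g2 hd2 hU2
      set S2 := sm (Wf s z e f) (Cf s y1 a' b' y p q) with hS2
      have hS2sub : S2 ⊆ Cf s x1 a b y p q := by
        intro w hw
        obtain ⟨u, hu, v, hv, rfl⟩ := mem_sm.1 hw
        exact hU2 u hu v hv
      have b3 : (S2.card : ℝ) ≤ Real.exp (Real.log ((Fintype.card X * (l + 1) ^ 2 : ℕ) : ℝ) +
          (E - φ o1 - φ o2) + φ o2) * (RR S2 : ℝ) ^ lam :=
        good_sm g3 g2 hd2 (fun u hu v hv => mem_sm.2 ⟨u, hu, v, hv, rfl⟩)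
      have hd3 : Dir (Cf s x i j x1 a b) S2 := by
        refine dir_of_disjoint (Cf_sub s x i j x1 a b)
          (hS2sub.trans (Cf_sub s x1 a b y p q)) ?_
        rw [Finset.disjoint_left]
        intro t ht ht'
        simp only [Finset.mem_sdiff, Finset.mem_Ico] at ht ht'
        omega
      have b4 := good_sm (U := Cf s x i j y p q) g1 b3 hd3 (by
        intro u hu v hv
        exact mem_Cf.2 ((mem_Cf.1 hu).trans (mem_Cf.1 (hS2sub hv))))
      refine b4.trans ?_
      have hKpos : (0 : ℝ) < ((Fintype.card X * (l + 1) ^ 2 : ℕ) : ℝ) := by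
        have : 0 < Fintype.card X * (l + 1) ^ 2 := by positivity
        exact_mod_cast this
      rw [show φ o1 + (Real.log ((Fintype.card X * (l + 1) ^ 2 : ℕ) : ℝ) +
          (E - φ o1 - φ o2) + φ o2) =
          Real.log ((Fintype.card X * (l + 1) ^ 2 : ℕ) : ℝ) + E by ring, Real.exp_add,
        Real.exp_log hKpos, mul_assoc]
    · simp; positivity
  have h1 : ((Cf s x i j y p q).card : ℝ) ≤ ∑ t ∈ T, ((F t).card : ℝ) := by
    have := (Finset.card_le_card hsub).trans Finset.card_biUnion_le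
    exact_mod_cast this
  refine h1.trans ((Finset.sum_le_card_nsmul _ _ _ hcard).trans ?_)
  rw [nsmul_eq_mul, ← mul_assoc]
  apply mul_le_mul_of_nonneg_right _ (by positivity)
  have hTc : T.card ≤ Fintype.card X ^ 3 * (l + 1) ^ 4 := by
    rw [hT]
    simp only [Finset.card_product, Finset.card_univ, Nat.card_Icc, Fintype.card_prod]
    have e1 : p + 1 - i ≤ l + 1 := by omega
    have e2 : j + 1 - q ≤ l + 1 := by omega
    calc Fintype.card X * (Fintype.card X * Fintype.card X) *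
        ((p + 1 - i) * (j + 1 - q) * ((p + 1 - i) * (j + 1 - q)))
        ≤ Fintype.card X * (Fintype.card X * Fintype.card X) *
          ((l + 1) * (l + 1) * ((l + 1) * (l + 1))) := by gcongr
      _ = _ := by ring
  have : T.card * (Fintype.card X * (l + 1) ^ 2) ≤ Fintype.card X ^ 4 * (l + 1) ^ 6 := by
    calc T.card * (Fintype.card X * (l + 1) ^ 2)
        ≤ (Fintype.card X ^ 3 * (l + 1) ^ 4) * (Fintype.card X * (l + 1) ^ 2) :=
          Nat.mul_le_mul_right _ hTc
      _ = _ := by ring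
  exact_mod_cast this

end

end Pool.Agent.Helper12.CF
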