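import Mathlib

/-!
Representation numbers of finite sets of digit functions, direct sums, boxes.
-/

namespace Pool.Agent.Helper12.CF

open Finset

noncomputable section

open scoped Classical in
/-- Number of ordered representations of `N` as a sum of two elements of `S`. -/
def rp (S : Finset (ℕ → ℕ)) (N : ℕ → ℕ) : ℕ :=
  ((S ×ˢ S).filter (fun p => p.1 + p.2 = N)).card

/-- The largest number of representations. -/
def RR (S : Finset (ℕ → ℕ)) : ℕ := (S ×ˢ S).sup (fun p => rp S (p.1 + p.2))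

lemma rp_le (S : Finset (ℕ → ℕ)) (N : ℕ → ℕ) : rp S N ≤ RR S := by
  classical
  rcases Nat.eq_zero_or_pos (rp S N) with h | h
  · rw [h]; exact Nat.zero_le _
  · have h' := h
    unfold rp at h'
    obtain ⟨p, hp⟩ := Finset.card_pos.1 h'
    rw [Finset.mem_filter] at hp
    have := Finset.le_sup (f := fun p : (ℕ → ℕ) × (ℕ → ℕ) => rp S (p.1 + p.2)) hp.1
    simp only [hp.2] at this
    exact this

lemma exists_rp {S : Finset (ℕ → ℕ)} (h : S.Nonempty) : ∃ N, rp S N = RR S := by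
  classical
  obtain ⟨p, -, hp⟩ := Finset.exists_mem_eq_sup (S ×ˢ S) (h.product h)
    (fun p => rp S (p.1 + p.2))
  exact ⟨p.1 + p.2, hp.symm⟩

lemma rp_mono {S T : Finset (ℕ → ℕ)} (h : S ⊆ T) (N : ℕ → ℕ) : rp S N ≤ rp T N := by
  classical
  unfold rp
  apply Finset.card_le_card
  intro p hp
  rw [Finset.mem_filter, Finset.mem_product] at hp ⊢
  exact ⟨⟨h hp.1.1, h hp.1.2⟩, hp.2⟩

lemma RR_mono {S T : Finset (ℕ → ℕ)} (h : S ⊆ T) : RR S ≤ RR T := by
  unfold RR
  apply Finset.sup_le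
  intro p _
  exact (rp_mono h _).trans (rp_le T _)

lemma one_le_RR {S : Finset (ℕ → ℕ)} (h : S.Nonempty) : 1 ≤ RR S := by
  classical
  obtain ⟨a, ha⟩ := h
  refine le_trans ?_ (rp_le S (a + a))
  unfold rp
  rw [Nat.one_le_iff_ne_zero, ← Nat.pos_iff_ne_zero, Finset.card_pos]
  exact ⟨(a, a), by simp [ha]⟩

lemma two_le_RR {S : Finset (ℕ → ℕ)} (h : 1 < S.card) : 2 ≤ RR S := by
  classical
  obtain ⟨a, ha, b, hb, hab⟩ := Finset.one_lt_card.1 h
  refine le_trans ?_ (rp_le S (a + b))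
  unfold rp
  have hs : ({(a, b), (b, a)} : Finset ((ℕ → ℕ) × (ℕ → ℕ))) ⊆
      (S ×ˢ S).filter (fun p => p.1 + p.2 = a + b) := by
    intro p hp
    rw [Finset.mem_insert, Finset.mem_singleton] at hp
    rcases hp with rfl | rfl
    · simp [ha, hb]
    · simp [ha, hb, add_comm]
  have hc : ({(a, b), (b, a)} : Finset ((ℕ → ℕ) × (ℕ → ℕ))).card = 2 := by
    apply Finset.card_pair
    intro h
    exact hab (congrArg Prod.fst h)
  rw [← hc]
  exact Finset.card_le_card hs

/-- If `S` has at most `2 ^ lam` elements then it has at most `RR S ^ lam` elements. -/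
lemma card_le_RR_pow {S : Finset (ℕ → ℕ)} {lam : ℕ} (h : S.card ≤ 2 ^ lam) :
    S.card ≤ RR S ^ lam := by
  rcases Nat.lt_or_ge 1 S.card with h1 | h1
  · exact h.trans (Nat.pow_le_pow_left (two_le_RR h1) _)
  · rcases Nat.eq_zero_or_pos S.card with h0 | h0
    · rw [h0]; exact Nat.zero_le _
    · exact h1.trans (Nat.one_le_pow _ _ (one_le_RR (Finset.card_pos.1 h0)))

/-- Sums of an element of `S` and an element of `T` are different. -/
def Dir (S T : Finset (ℕ → ℕ)) : Prop :=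
  ∀ u ∈ S, ∀ u' ∈ S, ∀ v ∈ T, ∀ v' ∈ T, u + v = u' + v' → u = u' ∧ v = v'

open scoped Classical in
/-- The sum set. -/
def sm (S T : Finset (ℕ → ℕ)) : Finset (ℕ → ℕ) := (S ×ˢ T).image (fun p => p.1 + p.2)

lemma mem_sm {S T : Finset (ℕ → ℕ)} {w : ℕ → ℕ} :
    w ∈ sm S T ↔ ∃ u ∈ S, ∃ v ∈ T, w = u + v := by
  classical
  unfold sm
  rw [Finset.mem_image]
  constructor
  · rintro ⟨p, hp, rfl⟩
    rw [Finset.mem_product] at hp
    exact ⟨p.1, hp.1, p.2, hp.2, rfl⟩
  · rintro ⟨u, hu, v, hv, rfl⟩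
    exact ⟨(u, v), Finset.mem_product.2 ⟨hu, hv⟩, rfl⟩

lemma card_sm_le (S T : Finset (ℕ → ℕ)) : (sm S T).card ≤ S.card * T.card := by
  classical
  unfold sm
  refine Finset.card_image_le.trans ?_
  rw [Finset.card_product]

/-- Direct sums multiply representation numbers. -/
lemma RR_mul {S T U : Finset (ℕ → ℕ)} (hS : S.Nonempty) (hT : T.Nonempty) (hd : Dir S T)
    (hU : ∀ u ∈ S, ∀ v ∈ T, u + v ∈ U) : RR S * RR T ≤ RR U := by
  classical
  obtain ⟨M, hM⟩ := exists_rp hS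
  obtain ⟨N, hN⟩ := exists_rp hT
  rw [← hM, ← hN]
  refine le_trans ?_ (rp_le U (M + N))
  unfold rp
  rw [← Finset.card_product]
  apply Finset.card_le_card_of_injOn
    (fun q : ((ℕ → ℕ) × (ℕ → ℕ)) × ((ℕ → ℕ) × (ℕ → ℕ)) =>
      ((q.1.1 + q.2.1, q.1.2 + q.2.2) : (ℕ → ℕ) × (ℕ → ℕ)))
  · intro q hq
    rw [Finset.mem_coe, Finset.mem_product, Finset.mem_filter, Finset.mem_filter,
      Finset.mem_product, Finset.mem_product] at hq
    rw [Finset.mem_coe, Finset.mem_filter, Finset.mem_product]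
    refine ⟨⟨hU _ hq.1.1.1 _ hq.2.1.1, hU _ hq.1.1.2 _ hq.2.1.2⟩, ?_⟩
    rw [← hq.1.2, ← hq.2.2]
    simp only
    abel
  · intro q hq q' hq' h
    rw [Finset.mem_coe, Finset.mem_product, Finset.mem_filter, Finset.mem_filter,
      Finset.mem_product, Finset.mem_product] at hq hq'
    have h1 := congrArg Prod.fst h
    have h2 := congrArg Prod.snd h
    simp only at h1 h2
    obtain ⟨a1, a2⟩ := hd _ hq.1.1.1 _ hq'.1.1.1 _ hq.2.1.1 _ hq'.2.1.1 h1
    obtain ⟨b1, b2⟩ := hd _ hq.1.1.2 _ hq'.1.1.2 _ hq.2.1.2 _ hq'.2.1.2 h2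
    exact Prod.ext (Prod.ext a1 b1) (Prod.ext a2 b2)

/-! Boxes of digit functions. -/

open scoped Classical in
/-- Functions with values in `D t` for `t` in `I` and zero outside `I`. -/
def boxF (D : ℕ → Finset ℕ) (I : Finset ℕ) : Finset (ℕ → ℕ) :=
  (Finset.pi I D).image (fun g t => if h : t ∈ I then g t h else 0)

lemma mem_boxF {D : ℕ → Finset ℕ} {I : Finset ℕ} {f : ℕ → ℕ} :
    f ∈ boxF D I ↔ (∀ t ∈ I, f t ∈ D t) ∧ ∀ t, t ∉ I → f t = 0 := by
  classical
  unfold boxF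
  rw [Finset.mem_image]
  constructor
  · rintro ⟨g, hg, rfl⟩
    rw [Finset.mem_pi] at hg
    constructor
    · intro t ht
      simp only [ht, dite_true]
      exact hg t ht
    · intro t ht
      simp only [ht, dite_false]
  · rintro ⟨h1, h2⟩
    refine ⟨fun t _ => f t, ?_, ?_⟩
    · rw [Finset.mem_pi]
      intro t ht
      exact h1 t ht
    · funext t
      by_cases ht : t ∈ I
      · simp [ht]
      · simp [ht, h2 t ht]

lemma card_boxF_le {D : ℕ → Finset ℕ} {k : ℕ} (hD : ∀ t, (D t).card ≤ k) (I : Finset ℕ) :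
    (boxF D I).card ≤ k ^ I.card := by
  classical
  unfold boxF
  refine Finset.card_image_le.trans ?_
  rw [Finset.card_pi]
  exact Finset.prod_le_pow_card _ _ _ (fun t _ => hD t)

lemma dir_of_disjoint {D : ℕ → Finset ℕ} {S T : Finset (ℕ → ℕ)} {I J : Finset ℕ}
    (hS : S ⊆ boxF D I) (hT : T ⊆ boxF D J) (hd : Disjoint I J) : Dir S T := by
  intro u hu u' hu' v hv v' hv' h
  have hu := mem_boxF.1 (hS hu)
  have hu' := mem_boxF.1 (hS hu')
  have hv := mem_boxF.1 (hT hv)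
  have hv' := mem_boxF.1 (hT hv')
  have key : ∀ t, u t + v t = u' t + v' t := fun t => congrFun h t
  have h1 : u = u' := by
    funext t
    by_cases ht : t ∈ I
    · have htJ : t ∉ J := fun h' => (Finset.disjoint_left.1 hd ht h')
      have := key t
      rw [hv.2 t htJ, hv'.2 t htJ] at this
      simpa using this
    · rw [hu.2 t ht, hu'.2 t ht]
  refine ⟨h1, ?_⟩
  funext t
  have := key t
  rw [h1] at this
  exact Nat.add_left_cancel this

lemma add_mem_boxF {D : ℕ → Finset ℕ} {I J K : Finset ℕ} {u v : ℕ → ℕ} (hu : u ∈ boxF D I)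
    (hv : v ∈ boxF D J) (hd : Disjoint I J) (hK : I ∪ J = K) : u + v ∈ boxF D K := by
  rw [mem_boxF] at hu hv ⊢
  subst hK
  constructor
  · intro t ht
    rw [Finset.mem_union] at ht
    rw [Pi.add_apply]
    rcases ht with ht | ht
    · have htJ : t ∉ J := fun h' => (Finset.disjoint_left.1 hd ht h')
      rw [hv.2 t htJ]
      simpa using hu.1 t ht
    · have htI : t ∉ I := fun h' => (Finset.disjoint_left.1 hd h' ht)
      rw [hu.2 t htI]
      simpa using hv.1 t ht
  · intro t ht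
    rw [Finset.mem_union, not_or] at ht
    rw [Pi.add_apply, hu.2 t ht.1, hv.2 t ht.2]

end

end Pool.Agent.Helper12.CF
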