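import Pool.Agent.Helper12.CF.RR

/-!
Position dependent context-free systems: words, contexts and cuts.
-/

namespace Pool.Agent.Helper12.CF

open Finset

noncomputable section

/-- A context-free system with labels `X`: `W x i j w` says that `w` is (the value function of)
a word with label `x` at the positions `i, ..., j - 1`. Every word of length at least two is the
sum of two shorter words, and the two labels and the cut can be filled freely. -/
structure Sys (X : Type) (D : ℕ → Finset ℕ) where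
  W : X → ℕ → ℕ → (ℕ → ℕ) → Prop
  supp : ∀ {x i j w}, W x i j w → w ∈ boxF D (Ico i j)
  dec : ∀ {x i j w}, W x i j w → i + 2 ≤ j → ∃ m y z u v, i < m ∧ m < j ∧
    W y i m u ∧ W z m j v ∧ w = u + v ∧
    ∀ u' v', W y i m u' → W z m j v' → W x i j (u' + v')

variable {X : Type} {D : ℕ → Finset ℕ}

/-- The gate `x [i, j) -> y [i, m) z [m, j)` can be used freely. -/
def Gate (s : Sys X D) (x : X) (i m j : ℕ) (y z : X) : Prop :=
  i < m ∧ m < j ∧ ∀ u v, s.W y i m u → s.W z m j v → s.W x i j (u + v)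

/-- Contexts. -/
inductive Ctx (s : Sys X D) : X → ℕ → ℕ → X → ℕ → ℕ → (ℕ → ℕ) → Prop
  | refl (x : X) (i j : ℕ) (h : i ≤ j) : Ctx s x i j x i j 0
  | left {x : X} {i m j : ℕ} {y z y' : X} {p q : ℕ} {c v : ℕ → ℕ}
      (hg : Gate s x i m j y z) (hv : s.W z m j v) (hc : Ctx s y i m y' p q c) :
      Ctx s x i j y' p q (c + v)
  | right {x : X} {i m j : ℕ} {y z y' : X} {p q : ℕ} {c u : ℕ → ℕ}
      (hg : Gate s x i m j y z) (hu : s.W y i m u) (hc : Ctx s z m j y' p q c) :
      Ctx s x i j y' p q (c + u)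

lemma Ctx.bounds {s : Sys X D} {x : X} {i j : ℕ} {y : X} {p q : ℕ} {c : ℕ → ℕ}
    (h : Ctx s x i j y p q c) : i ≤ p ∧ p ≤ q ∧ q ≤ j := by
  induction h with
  | refl x i j h => exact ⟨le_rfl, h, le_rfl⟩
  | left hg hv hc ih =>
    obtain ⟨h1, h2, _⟩ := hg
    omega
  | right hg hu hc ih =>
    obtain ⟨h1, h2, _⟩ := hg
    omega

lemma Ctx.supp {s : Sys X D} {x : X} {i j : ℕ} {y : X} {p q : ℕ} {c : ℕ → ℕ}
    (h : Ctx s x i j y p q c) : c ∈ boxF D (Ico i j \ Ico p q) := by
  induction h with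
  | refl x i j h =>
    rw [mem_boxF]
    simp
  | @left x i m j y z y' p q c v hg hv hc ih =>
    have hb := hc.bounds
    obtain ⟨h1, h2, _⟩ := hg
    refine add_mem_boxF ih (s.supp hv) ?_ ?_
    · rw [Finset.disjoint_left]
      intro t ht ht'
      simp only [Finset.mem_sdiff, Finset.mem_Ico] at ht ht'
      omega
    · ext t
      simp only [Finset.mem_sdiff, Finset.mem_Ico, Finset.mem_union]
      omega
  | @right x i m j y z y' p q c u hg hu hc ih =>
    have hb := hc.bounds
    obtain ⟨h1, h2, _⟩ := hg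
    refine add_mem_boxF ih (s.supp hu) ?_ ?_
    · rw [Finset.disjoint_left]
      intro t ht ht'
      simp only [Finset.mem_sdiff, Finset.mem_Ico] at ht ht'
      omega
    · ext t
      simp only [Finset.mem_sdiff, Finset.mem_Ico, Finset.mem_union]
      omega

/-- Filling the hole of a context. -/
lemma Ctx.fill {s : Sys X D} {x : X} {i j : ℕ} {y : X} {p q : ℕ} {c : ℕ → ℕ}
    (h : Ctx s x i j y p q c) {w : ℕ → ℕ} (hw : s.W y p q w) : s.W x i j (c + w) := by
  induction h with
  | refl x i j h => simpa using hw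
  | @left x i m j y z y' p q c v hg hv hc ih =>
    have := hg.2.2 _ _ (ih hw) hv
    rwa [add_right_comm] at this
  | @right x i m j y z y' p q c u hg hu hc ih =>
    have := hg.2.2 _ _ hu (ih hw)
    have e : c + u + w = u + (c + w) := by abel
    rwa [e]

/-- Composition of contexts. -/
lemma Ctx.trans {s : Sys X D} {x : X} {i j : ℕ} {y : X} {p q : ℕ} {c : ℕ → ℕ}
    (h : Ctx s x i j y p q c) {z : X} {a b : ℕ} {d : ℕ → ℕ} (hd : Ctx s y p q z a b d) :
    Ctx s x i j z a b (c + d) := by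
  induction h with
  | refl x i j h => simpa using hd
  | @left x i m j y z y' p q c v hg hv hc ih =>
    have := Ctx.left hg hv (ih hd)
    rwa [add_right_comm] at this
  | @right x i m j y z y' p q c u hg hu hc ih =>
    have := Ctx.right hg hu (ih hd)
    rwa [add_right_comm] at this

/-- Cutting a word: a subword of length between one third and two thirds. -/
lemma word_cut (s : Sys X D) {l : ℕ} (hl : 2 ≤ l) :
    ∀ (L : ℕ) {x : X} {i j : ℕ} {w : ℕ → ℕ}, s.W x i j w → j = i + L → 2 * l < 3 * L →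
    ∃ y p q c v, Ctx s x i j y p q c ∧ s.W y p q v ∧ w = c + v ∧
      l ≤ 3 * (q - p) ∧ 3 * (q - p) ≤ 2 * l := by
  intro L
  induction L using Nat.strong_induction_on with
  | _ L ih =>
    intro x i j w hw hj hL
    obtain ⟨m, y, z, u, v, h1, h2, hu, hv, rfl, hg⟩ := s.dec hw (by omega)
    have hgate : Gate s x i m j y z := ⟨h1, h2, hg⟩
    rcases Nat.lt_or_ge (m - i) (j - m) with hlt | hge
    · -- the right child is longer
      rcases Nat.lt_or_ge (2 * l) (3 * (j - m)) with hbig | hsmall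
      · obtain ⟨y', p, q, c, v', hc, hv', e, h3, h4⟩ :=
          ih (j - m) (by omega) hv (by omega) hbig
        refine ⟨y', p, q, c + u, v', Ctx.right hgate hu hc, hv', ?_, h3, h4⟩
        rw [e]; abel
      · refine ⟨z, m, j, 0 + u, v, Ctx.right hgate hu (Ctx.refl z m j h2.le), hv, ?_, ?_, hsmall⟩
        · simp
        · omega
    · rcases Nat.lt_or_ge (2 * l) (3 * (m - i)) with hbig | hsmall
      · obtain ⟨y', p, q, c, v', hc, hv', e, h3, h4⟩ :=
          ih (m - i) (by omega) hu (by omega) hbig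
        refine ⟨y', p, q, c + v, v', Ctx.left hgate hv hc, hv', ?_, h3, h4⟩
        rw [e]; abel
      · refine ⟨y, i, m, 0 + v, u, Ctx.left hgate hv (Ctx.refl y i m h1.le), hu, ?_, ?_, hsmall⟩
        · rw [zero_add, add_comm]
        · omega

/-- A step of a path: gate from `(x, i, j)` to the child `(y, a, b)` with side word `z`
at the positions `[e, f)`. -/
def Step (s : Sys X D) (x : X) (i j : ℕ) (y : X) (a b : ℕ) (z : X) (e f : ℕ) : Prop :=
  (Gate s x i b j y z ∧ a = i ∧ e = b ∧ f = j) ∨ (Gate s x i a j z y ∧ b = j ∧ e = i ∧ f = a)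

lemma Step.ctx {s : Sys X D} {x : X} {i j : ℕ} {y : X} {a b : ℕ} {z : X} {e f : ℕ}
    (h : Step s x i j y a b z e f) {v : ℕ → ℕ} (hv : s.W z e f v) {y' : X} {p q : ℕ}
    {c : ℕ → ℕ} (hc : Ctx s y a b y' p q c) : Ctx s x i j y' p q (c + v) := by
  rcases h with ⟨hg, rfl, rfl, rfl⟩ | ⟨hg, rfl, rfl, rfl⟩
  · exact Ctx.left hg hv hc
  · exact Ctx.right hg hv hc

/-- Cutting a context at a threshold. -/
lemma ctx_cut {s : Sys X D} {x : X} {i j : ℕ} {y : X} {p q : ℕ} {c : ℕ → ℕ}
    (h : Ctx s x i j y p q c) : ∀ th : ℕ, th + (q - p) < j - i →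
    ∃ (x1 : X) (a b : ℕ) (c1 : ℕ → ℕ) (y1 : X) (a' b' : ℕ) (z : X) (e f : ℕ) (v c2 : ℕ → ℕ),
      Ctx s x i j x1 a b c1 ∧ j - i ≤ b - a + th ∧ Step s x1 a b y1 a' b' z e f ∧
      s.W z e f v ∧ b' - a' + th < j - i ∧ Ctx s y1 a' b' y p q c2 ∧ c = c1 + (c2 + v) := by
  induction h with
  | refl x i j h => intro th hth; omega
  | @left x i m j y z y' p q c v hg hv hc ih =>
    intro th hth
    have hb := hc.bounds
    have h1 := hg.1
    have h2 := hg.2.1
    rcases Nat.lt_or_ge th (j - m) with hlt | hge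
    · refine ⟨x, i, j, 0, y, i, m, z, m, j, v, c, Ctx.refl x i j (by omega), by omega,
        Or.inl ⟨hg, rfl, rfl, rfl⟩, hv, by omega, hc, by simp⟩
    · obtain ⟨x1, a, b, c1, y1, a', b', z1, e, f, v1, c2, k1, k2, k3, k4, k5, k6, k7⟩ :=
        ih (th - (j - m)) (by omega)
      refine ⟨x1, a, b, c1 + v, y1, a', b', z1, e, f, v1, c2, Ctx.left hg hv k1, by omega, k3,
        k4, by omega, k6, ?_⟩
      rw [k7]; abel
  | @right x i m j y z y' p q c u hg hu hc ih =>
    intro th hth
    have hb := hc.bounds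
    have h1 := hg.1
    have h2 := hg.2.1
    rcases Nat.lt_or_ge th (m - i) with hlt | hge
    · refine ⟨x, i, j, 0, z, m, j, y, i, m, u, c, Ctx.refl x i j (by omega), by omega,
        Or.inr ⟨hg, rfl, rfl, rfl⟩, hu, by omega, hc, by simp⟩
    · obtain ⟨x1, a, b, c1, y1, a', b', z1, e, f, v1, c2, k1, k2, k3, k4, k5, k6, k7⟩ :=
        ih (th - (m - i)) (by omega)
      refine ⟨x1, a, b, c1 + u, y1, a', b', z1, e, f, v1, c2, Ctx.right hg hu k1, by omega, k3,
        k4, by omega, k6, ?_⟩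
      rw [k7]; abel

end

end Pool.Agent.Helper12.CF
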